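import Pool.Agent.Q21.PR.Tab

/-!
# The group `PΓL₂(9)` as a permutation group with a sign
-/

set_option autoImplicit false

namespace Pool.Agent.Q21.PR

theorem dg_eq (c j : ℕ) : dg c j = c / 16 ^ j % 16 := by
  have h1 : dg c j = (c >>> (4 * j)) &&& (2 ^ 4 - 1) := rfl
  rw [h1, Nat.and_two_pow_sub_one_eq_mod, Nat.shiftRight_eq_div_pow, pow_mul]
  norm_num

/-- permutations of ten points together with a sign -/
abbrev E := Equiv.Perm (Fin 10) × Multiplicative (ZMod 2)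

/-- code of a permutation -/
def cod (σ : Equiv.Perm (Fin 10)) : ℕ :=
  (σ 0).val + 16 * ((σ 1).val + 16 * ((σ 2).val + 16 * ((σ 3).val + 16 * ((σ 4).val +
  16 * ((σ 5).val + 16 * ((σ 6).val + 16 * ((σ 7).val + 16 * ((σ 8).val + 16 * (σ 9).val))))))))

theorem dg_cod (σ : Equiv.Perm (Fin 10)) (j : Fin 10) : dg (cod σ) j.val = (σ j).val := by
  rw [dg_eq]
  unfold cod
  have h : ∀ j, (σ j).val < 10 := fun j => (σ j).isLt
  have h0 := h 0
  have h1 := h 1
  have h2 := h 2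
  have h3 := h 3
  have h4 := h 4
  have h5 := h 5
  have h6 := h 6
  have h7 := h 7
  have h8 := h 8
  have h9 := h 9
  generalize e0 : (σ 0).val = x0 at *
  generalize e1 : (σ 1).val = x1 at *
  generalize e2 : (σ 2).val = x2 at *
  generalize e3 : (σ 3).val = x3 at *
  generalize e4 : (σ 4).val = x4 at *
  generalize e5 : (σ 5).val = x5 at *
  generalize e6 : (σ 6).val = x6 at *
  generalize e7 : (σ 7).val = x7 at *
  generalize e8 : (σ 8).val = x8 at *
  generalize e9 : (σ 9).val = x9 at *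
  clear h
  fin_cases j
  · show _ / 16 ^ 0 % 16 = (σ 0).val
    rw [e0]; omega
  · show _ / 16 ^ 1 % 16 = (σ 1).val
    rw [e1]; omega
  · show _ / 16 ^ 2 % 16 = (σ 2).val
    rw [e2]; omega
  · show _ / 16 ^ 3 % 16 = (σ 3).val
    rw [e3]; omega
  · show _ / 16 ^ 4 % 16 = (σ 4).val
    rw [e4]; omega
  · show _ / 16 ^ 5 % 16 = (σ 5).val
    rw [e5]; omega
  · show _ / 16 ^ 6 % 16 = (σ 6).val
    rw [e6]; omega
  · show _ / 16 ^ 7 % 16 = (σ 7).val
    rw [e7]; omega
  · show _ / 16 ^ 8 % 16 = (σ 8).val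
    rw [e8]; omega
  · show _ / 16 ^ 9 % 16 = (σ 9).val
    rw [e9]; omega

theorem cod_inj {σ τ : Equiv.Perm (Fin 10)} (h : cod σ = cod τ) : σ = τ := by
  ext j
  rw [← dg_cod, ← dg_cod, h]

theorem cod_mul (σ τ : Equiv.Perm (Fin 10)) : cod (σ * τ) = cmp (cod σ) (cod τ) := by
  have h : ∀ j : Fin 10, dg (cod σ) (dg (cod τ) j.val) = ((σ * τ) j).val := by
    intro j
    rw [dg_cod τ j, dg_cod σ (τ j)]
    rfl
  have h0 : cmp (cod σ) (cod τ) =
    dg (cod σ) (dg (cod τ) (0 : Fin 10).val) + 16 * (dg (cod σ) (dg (cod τ) (1 : Fin 10).val) +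
    16 * (dg (cod σ) (dg (cod τ) (2 : Fin 10).val) + 16 * (dg (cod σ) (dg (cod τ) (3 : Fin 10).val) +
    16 * (dg (cod σ) (dg (cod τ) (4 : Fin 10).val) + 16 * (dg (cod σ) (dg (cod τ) (5 : Fin 10).val) +
    16 * (dg (cod σ) (dg (cod τ) (6 : Fin 10).val) + 16 * (dg (cod σ) (dg (cod τ) (7 : Fin 10).val) +
    16 * (dg (cod σ) (dg (cod τ) (8 : Fin 10).val) + 16 * dg (cod σ) (dg (cod τ) (9 : Fin 10).val))))))))) := rfl
  rw [h0]
  simp only [h]
  rfl

theorem cod_ne_zero (σ : Equiv.Perm (Fin 10)) : cod σ ≠ 0 := by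
  intro h
  have h1 : ∀ j : Fin 10, σ j = 0 := by
    intro j
    apply Fin.ext
    rw [← dg_cod, h, dg_eq]
    simp
  have h2 : (0 : Fin 10) = 1 := σ.injective ((h1 0).trans (h1 1).symm)
  exact absurd h2 (by decide)

/-- the sign as a number -/
def xx (e : E) : ℕ := (Multiplicative.toAdd e.2).val

theorem xx_lt (e : E) : xx e < 2 := ZMod.val_lt _

theorem xx_mul (e f : E) : xx (e * f) = (xx e + xx f) % 2 := by
  unfold xx
  rw [Prod.snd_mul, toAdd_mul, ZMod.val_add]

theorem ky_cod (σ : Equiv.Perm (Fin 10)) (x : ℕ) :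
    ky (cod σ) x = (σ 9).val + (10 * (σ 0).val + (100 * (σ 1).val + 1000 * x)) := by
  have h : ky (cod σ) x = dg (cod σ) (9 : Fin 10).val + (10 * dg (cod σ) (0 : Fin 10).val +
    (100 * dg (cod σ) (1 : Fin 10).val + 1000 * x)) := rfl
  rw [h, dg_cod, dg_cod, dg_cod]

/-- the index of an element -/
def kk (e : E) : ℕ := ky (cod e.1) (xx e)

theorem kk_lt (e : E) : kk e < 2000 := by
  unfold kk
  rw [ky_cod]
  have h0 := (e.1 0).isLt
  have h1 := (e.1 1).isLt
  have h9 := (e.1 9).isLt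
  have := xx_lt e
  omega

theorem px_kk (e : E) : px (kk e) = xx e := by
  have h : px (kk e) = kk e / 1000 := rfl
  rw [h]
  unfold kk
  rw [ky_cod]
  have h0 := (e.1 0).isLt
  have h1 := (e.1 1).isLt
  have h9 := (e.1 9).isLt
  have := xx_lt e
  omega

/-- elements of the table -/
def InA (e : E) : Prop := cd (kk e) = cod e.1

theorem InA.vd {e : E} (h : InA e) : vd (kk e) = true := by
  have h1 : PR.vd (kk e) = !(Nat.beq (cd (kk e)) 0) := rfl
  rw [h1, h]
  have h2 : Nat.beq (cod e.1) 0 = false := by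
    rw [← Bool.not_eq_true, Nat.beq_eq]
    exact cod_ne_zero e.1
  rw [h2]; rfl

theorem kk_inj {e f : E} (he : InA e) (hf : InA f) (h : kk e = kk f) : e = f := by
  apply Prod.ext
  · apply cod_inj
    rw [← he, ← hf, h]
  · have h1 : xx e = xx f := by rw [← px_kk, ← px_kk, h]
    have h2 : Multiplicative.toAdd e.2 = Multiplicative.toAdd f.2 := ZMod.val_injective 2 h1
    exact Multiplicative.toAdd.injective h2

/-- `z ↦ w z` -/
def gr : Equiv.Perm (Fin 10) where
  toFun := ![0, 4, 8, 5, 6, 1, 7, 2, 3, 9]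
  invFun := ![0, 5, 7, 8, 1, 3, 4, 6, 2, 9]
  left_inv := by decide
  right_inv := by decide

/-- an element of order five -/
def gu : Equiv.Perm (Fin 10) where
  toFun := ![1, 2, 3, 8, 7, 9, 4, 5, 0, 6]
  invFun := ![8, 0, 1, 2, 6, 7, 9, 4, 3, 5]
  left_inv := by decide
  right_inv := by decide

/-- the field automorphism -/
def gf : Equiv.Perm (Fin 10) where
  toFun := ![0, 1, 2, 6, 7, 8, 3, 4, 5, 9]
  invFun := ![0, 1, 2, 6, 7, 8, 3, 4, 5, 9]
  left_inv := by decide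
  right_inv := by decide

/-- the generators -/
def gen (g : ℕ) : E :=
  if g = 1 then (gr, 1) else if g = 2 then (gu, 1) else (gf, Multiplicative.ofAdd 1)

theorem cod_gen {g : ℕ} (h0 : 0 < g) (h4 : g < 4) : cod (gen g).1 = cg g ∧ cod (gen g)⁻¹.1 = ci g ∧
    xx (gen g) = xg g ∧ xx (gen g)⁻¹ = xg g := by
  interval_cases g
  · refine ⟨?_, ?_, ?_, ?_⟩ <;> decide +kernel
  · refine ⟨?_, ?_, ?_, ?_⟩ <;> decide +kernel
  · refine ⟨?_, ?_, ?_, ?_⟩ <;> decide +kernel

theorem InA_gen_mul {g : ℕ} (h0 : 0 < g) (h4 : g < 4) {e : E} (he : InA e) : InA (gen g * e) := by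
  obtain ⟨h1, -, h3, -⟩ := cod_gen h0 h4
  have hc : chk1 g (kk e) = true := by
    interval_cases g
    · exact allB_spec chk1_all1 _ (kk_lt e)
    · exact allB_spec chk1_all2 _ (kk_lt e)
    · exact allB_spec chk1_all3 _ (kk_lt e)
  have hu : chk1 g (kk e) = (!(PR.vd (kk e)) ||
      Nat.beq (cd (ky (cmp (cg g) (cd (kk e))) ((px (kk e) + xg g) % 2))) (cmp (cg g) (cd (kk e)))) := rfl
  rw [hu, he.vd, px_kk, he] at hc
  have hc' := Nat.beq_eq.mp (by simpa using hc)
  unfold InA kk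
  have h5 : (gen g * e).1 = (gen g).1 * e.1 := rfl
  rw [h5, cod_mul, xx_mul, h1, h3, add_comm (xg g)]
  exact hc'

theorem InA_one : InA 1 := by
  unfold InA; decide +kernel

theorem kk_one : kk 1 = 109 := by decide +kernel

theorem kk_mul (e f : E) : kk (e * f) = ky (cmp (cod e.1) (cod f.1)) ((xx e + xx f) % 2) := by
  unfold kk
  rw [show (e * f).1 = e.1 * f.1 from rfl, cod_mul, xx_mul]

theorem chk3_spec {k : ℕ} (hk : k < 2000) (hv : vd k = true) (h1 : k ≠ 109) :
    ∃ g c k', 0 < g ∧ g < 4 ∧ c = cmp (ci g) (cd k) ∧ k' = ky c ((px k + xg g) % 2) ∧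
      k' < 2000 ∧ c ≠ 0 ∧ cd k' = c ∧ td k' < td k ∧ cmp (cg g) c = cd k := by
  have hc : chk3 k = true := allB_spec chk3_all _ hk
  have hk1 : Nat.beq k 109 = false := by
    rw [← Bool.not_eq_true, Nat.beq_eq]; exact h1
  refine ⟨tg k, cmp (ci (tg k)) (cd k), ky (cmp (ci (tg k)) (cd k)) ((px k + xg (tg k)) % 2), ?_⟩
  have hu : chk3 k = ((!(PR.vd k) || Nat.beq k 109) ||
      ((Nat.blt (ky (cmp (ci (tg k)) (cd k)) ((px k + xg (tg k)) % 2)) 2000 && !(Nat.beq (cmp (ci (tg k)) (cd k)) 0)) &&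
      (Nat.beq (cd (ky (cmp (ci (tg k)) (cd k)) ((px k + xg (tg k)) % 2))) (cmp (ci (tg k)) (cd k)) &&
      (Nat.blt (td (ky (cmp (ci (tg k)) (cd k)) ((px k + xg (tg k)) % 2))) (td k) &&
      (Nat.beq (cmp (cg (tg k)) (cmp (ci (tg k)) (cd k))) (cd k) &&
      (Nat.blt 0 (tg k) && Nat.blt (tg k) 4)))))) := rfl
  rw [hu, hv, hk1] at hc
  simp only [Bool.not_true, Bool.or_self, Bool.false_or, Bool.and_eq_true, Nat.beq_eq, Nat.blt_eq,
    Bool.not_eq_true'] at hc
  obtain ⟨⟨ha, hb⟩, hcc, hd, he, h0, h4⟩ := hc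
  refine ⟨h0, h4, rfl, rfl, ha, ?_, hcc, hd, he⟩
  intro h
  rw [h] at hb
  exact absurd hb (by decide)

/-- removing the first generator of a word -/
theorem InA_pred {e : E} (he : InA e) (h1 : e ≠ 1) : ∃ g, 0 < g ∧ g < 4 ∧ ∃ f, InA f ∧ e = gen g * f ∧
    td (kk f) < td (kk e) := by
  obtain ⟨g, c, k', h0, h4, hc, hk', -, -, hcd, htd, -⟩ := chk3_spec (kk_lt e) he.vd
    (fun h => h1 (kk_inj he InA_one (by rw [h, kk_one])))
  have h6 : kk ((gen g)⁻¹ * e) = k' := by
    rw [kk_mul, (cod_gen h0 h4).2.1, (cod_gen h0 h4).2.2.2, hk', hc, px_kk, he, add_comm]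
  refine ⟨g, h0, h4, (gen g)⁻¹ * e, ?_, by group, ?_⟩
  · unfold InA
    rw [h6, hcd, hc, show ((gen g)⁻¹ * e).1 = (gen g)⁻¹.1 * e.1 from rfl, cod_mul, (cod_gen h0 h4).2.1, he]
  · rw [h6]; exact htd

theorem InA_mul {e f : E} (he : InA e) (hf : InA f) : InA (e * f) := by
  induction h : td (kk e) using Nat.strong_induction_on generalizing e with
  | _ n ih =>
    by_cases h1 : e = 1
    · rw [h1, one_mul]; exact hf
    · obtain ⟨g, h0, h4, e', he', hee, hd⟩ := InA_pred he h1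
      rw [hee, mul_assoc]
      exact InA_gen_mul h0 h4 (ih _ (h ▸ hd) he' rfl)

/-- `PΓL₂(9)` -/
def A : Subgroup E where
  carrier := {e | InA e}
  mul_mem' := fun he hf => InA_mul he hf
  one_mem' := InA_one
  inv_mem' := by
    intro e he
    have h1 : ∀ n : ℕ, InA (e ^ n) := by
      intro n
      induction n with
      | zero => rw [pow_zero]; exact InA_one
      | succ n ih => rw [pow_succ]; exact InA_mul ih he
    have h2 : e⁻¹ = e ^ (orderOf e - 1) := by
      have h3 : 0 < orderOf e := orderOf_pos e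
      rw [inv_eq_iff_mul_eq_one, ← pow_succ', Nat.sub_add_cancel h3, pow_orderOf_eq_one]
    show InA e⁻¹
    rw [h2]; exact h1 _

theorem mem_A {e : E} : e ∈ A ↔ InA e := Iff.rfl

theorem gen_mem {g : ℕ} (h0 : 0 < g) (h4 : g < 4) : gen g ∈ A := by
  have := InA_gen_mul h0 h4 InA_one
  rwa [mul_one] at this

/-- each index in use belongs to an element -/
theorem exists_of_vd {k : ℕ} (hk : k < 2000) (hv : vd k = true) : ∃ e ∈ A, kk e = k := by
  induction h : td k using Nat.strong_induction_on generalizing k with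
  | _ n ih =>
    by_cases h1 : k = 109
    · exact ⟨1, InA_one, by rw [h1, kk_one]⟩
    · obtain ⟨g, c, k', h0, h4, hc, hk', hlt, hc0, hcd, htd, hcm⟩ := chk3_spec hk hv h1
      have hv' : vd k' = true := by
        have h2 : PR.vd k' = !(Nat.beq (cd k') 0) := rfl
        rw [h2, hcd]
        have h3 : Nat.beq c 0 = false := by
          rw [← Bool.not_eq_true, Nat.beq_eq]; exact hc0
        rw [h3]; rfl
      obtain ⟨f, hf, hfk⟩ := ih _ (h ▸ htd) hlt hv' rfl
      refine ⟨gen g * f, A.mul_mem (gen_mem h0 h4) hf, ?_⟩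
      have hfc : cod f.1 = c := by rw [← hcd, ← hfk]; exact hf.symm
      have hxf : xx f = (px k + xg g) % 2 := by
        have h2 : ky (cod f.1) (xx f) = ky (cod f.1) ((px k + xg g) % 2) := by
          rw [hfc]
          rw [← hk', ← hfk, ← hfc]; rfl
        rw [ky_cod, ky_cod] at h2
        omega
      rw [kk_mul, (cod_gen h0 h4).1, (cod_gen h0 h4).2.2.1, hfc, hcm, hxf]
      have hp : px k < 2 := by
        have : px k = k / 1000 := rfl
        omega
      have h5 : (xg g + (px k + xg g) % 2) % 2 = px k := by omega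
      rw [h5]
      have hc2 : chk2 k = true := allB_spec chk2_all _ hk
      have hu : chk2 k = (!(PR.vd k) || Nat.beq (ky (cd k) (px k)) k) := rfl
      rw [hu, hv] at hc2
      exact Nat.beq_eq.mp (by simpa using hc2)

end Pool.Agent.Q21.PR
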