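import Mathlib

/-!
# The number of conjugacy classes of a finite group and of a normal subgroup
-/

set_option autoImplicit false

namespace Pool.Agent.Q21.PR

variable {X Y : Type} [Group X] [Group Y]

/-- commuting pairs with given predicates -/
def T (P Q : X → Prop) : Type := {p : X × X // P p.1 ∧ Q p.2 ∧ Commute p.1 p.2}

instance [Finite X] (P Q : X → Prop) : Finite (T P Q) := by
  unfold T; infer_instance

theorem T_symm (P Q : X → Prop) : Nat.card (T P Q) = Nat.card (T Q P) := by
  refine Nat.card_congr ⟨fun p => ⟨(p.1.2, p.1.1), p.2.2.1, p.2.1, p.2.2.2.symm⟩,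
    fun p => ⟨(p.1.2, p.1.1), p.2.2.1, p.2.1, p.2.2.2.symm⟩, fun p => rfl, fun p => rfl⟩

/-- shifting one coset into the kernel -/
theorem T_le [Finite X] (f : X →* Y) (a : Y) (Q : X → Prop) :
    Nat.card (T (fun x => f x = a) Q) ≤ Nat.card (T (fun x => f x = 1) Q) := by
  classical
  have hex : ∀ y : X, ∃ x0 : X, (∃ x, f x = a ∧ Commute x y) → f x0 = a ∧ Commute x0 y := by
    intro y
    by_cases h : ∃ x, f x = a ∧ Commute x y
    · obtain ⟨x, hx⟩ := h
      exact ⟨x, fun _ => hx⟩
    · exact ⟨1, fun h' => absurd h' h⟩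
  choose x0 hx0 using hex
  refine Nat.card_le_card_of_injective
    (fun p : T (fun x => f x = a) Q => (⟨((x0 p.1.2)⁻¹ * p.1.1, p.1.2), ?_, p.2.2.1, ?_⟩ :
      T (fun x => f x = 1) Q)) ?_
  · have h := hx0 p.1.2 ⟨p.1.1, p.2.1, p.2.2.2⟩
    show f ((x0 p.1.2)⁻¹ * p.1.1) = 1
    rw [map_mul, map_inv, h.1, p.2.1, inv_mul_cancel]
  · have h := hx0 p.1.2 ⟨p.1.1, p.2.1, p.2.2.2⟩
    exact (h.2.inv_left).mul_left p.2.2.2
  · intro p p' h
    have h1 : ((x0 p.1.2)⁻¹ * p.1.1, p.1.2) = ((x0 p'.1.2)⁻¹ * p'.1.1, p'.1.2) :=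
      congrArg Subtype.val h
    obtain ⟨ha, hb⟩ := Prod.mk.inj h1
    apply Subtype.ext
    apply Prod.ext
    · rw [hb] at ha
      exact mul_left_cancel ha
    · exact hb

theorem T_coset_le [Finite X] (f : X →* Y) (a b : Y) :
    Nat.card (T (fun x => f x = a) (fun x => f x = b)) ≤
      Nat.card (T (fun x => f x = 1) (fun x => f x = 1)) := by
  refine (T_le f a _).trans ?_
  rw [T_symm]
  exact T_le f b _

/-- commuting pairs of a subgroup -/
theorem card_T_mem (H : Subgroup X) [Finite X] :
    Nat.card (T (fun x => x ∈ H) (fun x => x ∈ H)) = Nat.card (ConjClasses H) * Nat.card H := by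
  rw [← card_comm_eq_card_conjClasses_mul_card]
  refine Nat.card_congr ⟨fun p => ⟨(⟨p.1.1, p.2.1⟩, ⟨p.1.2, p.2.2.1⟩), ?_⟩,
    fun p => ⟨(p.1.1, p.1.2), p.1.1.2, p.1.2.2, ?_⟩, fun p => rfl, fun p => rfl⟩
  · exact Subtype.ext p.2.2.2
  · exact congrArg Subtype.val p.2

/-- `k(X) ≤ k(Y) k(N)` for a surjection with kernel `N` -/
theorem card_conj_le [Finite X] (f : X →* Y) (hf : Function.Surjective f) :
    Nat.card (ConjClasses X) ≤ Nat.card (ConjClasses Y) * Nat.card (ConjClasses f.ker) := by
  classical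
  have hY : Finite Y := Finite.of_surjective f hf
  have hX := card_comm_eq_card_conjClasses_mul_card X
  have hY' := card_comm_eq_card_conjClasses_mul_card Y
  have hK := card_T_mem f.ker
  have hcard : Nat.card X = Nat.card f.ker * Nat.card Y := by
    rw [← Nat.card_congr (QuotientGroup.quotientKerEquivOfSurjective f hf).toEquiv, mul_comm]
    exact Subgroup.card_eq_card_quotient_mul_card_subgroup f.ker
  have key : Nat.card {p : X × X // Commute p.1 p.2} ≤
      Nat.card {p : Y × Y // Commute p.1 p.2} * Nat.card (T (fun x => x ∈ f.ker) (fun x => x ∈ f.ker)) := by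
    let g : {p : X × X // Commute p.1 p.2} → {p : Y × Y // Commute p.1 p.2} :=
      fun p => ⟨(f p.1.1, f p.1.2), p.2.map f⟩
    have := Fintype.ofFinite {p : X × X // Commute p.1 p.2}
    have := Fintype.ofFinite {p : Y × Y // Commute p.1 p.2}
    have h1 : Nat.card {p : X × X // Commute p.1 p.2} =
        ∑ q : {p : Y × Y // Commute p.1 p.2}, Nat.card {p : {p : X × X // Commute p.1 p.2} // g p = q} := by
      rw [← Nat.card_sigma]
      exact Nat.card_congr (Equiv.sigmaFiberEquiv g).symm
    rw [h1]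
    calc ∑ q : {p : Y × Y // Commute p.1 p.2}, Nat.card {p : {p : X × X // Commute p.1 p.2} // g p = q}
        ≤ ∑ q : {p : Y × Y // Commute p.1 p.2}, Nat.card (T (fun x => x ∈ f.ker) (fun x => x ∈ f.ker)) := by
          refine Finset.sum_le_sum fun q _ => ?_
          have h2 := T_coset_le f q.1.1 q.1.2
          refine le_trans ?_ h2
          refine Nat.card_le_card_of_injective (fun p => ⟨p.1.1, ?_, ?_, p.1.2⟩) ?_
          · have := p.2; exact congrArg (fun z => z.1.1) this
          · have := p.2; exact congrArg (fun z => z.1.2) this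
          · intro p p' h
            have h3 := congrArg (fun z => z.1) h
            exact Subtype.ext (Subtype.ext h3)
      _ = _ := by
          rw [Finset.sum_const, Finset.card_univ, Nat.card_eq_fintype_card (α := {p : Y × Y // Commute p.1 p.2}),
            smul_eq_mul]
  rw [hX, hY', hK, hcard] at key
  have h0 : 0 < Nat.card f.ker * Nat.card Y := Nat.mul_pos Nat.card_pos Nat.card_pos
  refine Nat.le_of_mul_le_mul_right (c := Nat.card f.ker * Nat.card Y) ?_ h0
  calc _ ≤ _ := key
    _ = _ := by ring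

end Pool.Agent.Q21.PR
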