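import Pool.Agent.Q21.PR.Sub

/-!
# Subgroups of order prime to three
-/

set_option autoImplicit false

namespace Pool.Agent.Q21.PR

open Subgroup

variable {G : Type} [Group G]

theorem normal_of_card_sylow [Finite G] (x : G) (hx : orderOf x = 5) (m : ℕ) (hm : Nat.card G = 5 * m)
    (h5 : ¬ 5 ∣ m) (hn : ∀ n, n ∣ m → n % 5 = 1 → n = 1 ∨ n = m) :
    (zpowers x).Normal ∨ m % 5 = 1 ∧ Nat.card (normalizer (zpowers x : Set G)) = 5 := by
  have : Fact (Nat.Prime 5) := ⟨by norm_num⟩
  have hfac : (Nat.card G).factorization 5 = 1 := by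
    have hm0 : m ≠ 0 := by rintro rfl; exact h5 (dvd_zero 5)
    rw [hm, Nat.factorization_mul (by norm_num) hm0]
    have h1 : Nat.factorization 5 5 = 1 := Nat.Prime.factorization_self (by norm_num)
    have h2 : Nat.factorization m 5 = 0 := Nat.factorization_eq_zero_of_not_dvd h5
    simp [h1, h2]
  let P : Sylow 5 G := Sylow.ofCard (zpowers x) (by rw [card_zp x hx, hfac, pow_one])
  have hP : (P : Subgroup G) = zpowers x := rfl
  have hidx : P.index = m := by
    have h := (zpowers x).card_mul_index
    rw [card_zp x hx, hm] at h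
    rw [hP]; omega
  have h1 : Nat.card (Sylow 5 G) ∣ m := hidx ▸ P.card_dvd_index
  have h2 : Nat.card (Sylow 5 G) % 5 = 1 := card_sylow_modEq_one 5 G
  have h3 := P.card_eq_index_normalizer
  rcases hn _ h1 h2 with h | h
  · left
    rw [h] at h3
    have h4 := Subgroup.index_eq_one.mp h3.symm
    rw [← hP]
    exact Subgroup.normalizer_eq_top_iff.mp h4
  · right
    refine ⟨h ▸ h2, ?_⟩
    rw [h] at h3
    have h4 := (normalizer (P : Set G)).card_mul_index
    rw [← h3, hm] at h4
    have hm0 : 0 < m := Nat.pos_of_ne_zero (by rintro rfl; exact h5 (dvd_zero 5))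
    exact Nat.eq_of_mul_eq_mul_right hm0 h4

theorem no_eighty [Finite G] (h80 : Nat.card G = 80)
    (hc : ∀ x : G, orderOf x = 5 → Nat.card (centralizer ({x} : Set G)) ∣ 10)
    (hab : ∀ K : Subgroup G, Nat.card K = 16 → ∃ a ∈ K, ∃ b ∈ K, a * b ≠ b * a) : False := by
  classical
  have : Fact (Nat.Prime 5) := ⟨by norm_num⟩
  obtain ⟨x, hx⟩ := exists_prime_orderOf_dvd_card' (G := G) 5 (by rw [h80]; norm_num)
  rcases normal_of_card_sylow x hx 16 (by rw [h80]) (by norm_num) (by
    intro n hn h
    have h16 : n ≤ 16 := Nat.le_of_dvd (by norm_num) hn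
    interval_cases n <;> omega) with h | ⟨-, h⟩
  · have h1 := card_le_four x hx h
    have h2 := Nat.le_of_dvd (by norm_num) (hc x hx)
    omega
  · have hfac : (Nat.card G).factorization 5 = 1 := by
      rw [h80, show (80 : ℕ) = 5 * 16 from rfl, Nat.factorization_mul (by norm_num) (by norm_num)]
      have h1 : Nat.factorization 5 5 = 1 := Nat.Prime.factorization_self (by norm_num)
      have h2 : Nat.factorization 16 5 = 0 := Nat.factorization_eq_zero_of_not_dvd (by norm_num)
      simp [h1, h2]
    let P : Sylow 5 G := Sylow.ofCard (zpowers x) (by rw [card_zp x hx, hfac, pow_one])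
    have hPc : (P : Subgroup G) = zpowers x := rfl
    have hN : normalizer (zpowers x : Set G) = zpowers x := by
      refine (Subgroup.eq_of_le_of_card_ge Subgroup.le_normalizer ?_).symm
      rw [h, card_zp x hx]
    have hP : normalizer (P : Set G) ≤ centralizer (P : Set G) := by
      have h1 : normalizer (P : Set G) = zpowers x := hN
      rw [h1]
      intro g hg
      rw [Subgroup.mem_centralizer_iff]
      intro y hy
      obtain ⟨a, rfl⟩ := Subgroup.mem_zpowers_iff.mp hg
      obtain ⟨b, rfl⟩ := Subgroup.mem_zpowers_iff.mp (show y ∈ zpowers x from hy)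
      rw [← zpow_add, ← zpow_add, add_comm]
    have hcompl := MonoidHom.ker_transferSylow_isComplement' P hP
    set K := (MonoidHom.transferSylow P hP).ker with hK
    have hKn : K.Normal := MonoidHom.normal_ker _
    have hKc : Nat.card K = 16 := by
      have h1 := hcompl.card_mul_card
      have h2 : Nat.card (P : Subgroup G) = 5 := card_zp x hx
      rw [h2, h80] at h1
      omega
    let Z0 : Subgroup G := K ⊓ centralizer (K : Set G)
    have hZn : Z0.Normal := inferInstance
    have hZK : Z0 ≤ K := inf_le_left
    have hZ1 : Nat.card Z0 ≠ 1 := by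
      have : Fact (Nat.Prime 2) := ⟨Nat.prime_two⟩
      have h1 : IsPGroup 2 K := IsPGroup.of_card (n := 4) (by rw [hKc]; norm_num)
      have hnt : Nontrivial K := by
        rw [← Finite.one_lt_card_iff_nontrivial, hKc]; norm_num
      have h2 := h1.center_nontrivial
      obtain ⟨⟨z, hz⟩, hz1⟩ := exists_ne (1 : center K)
      intro h3
      apply hz1
      have h4 : (z : G) ∈ Z0 := by
        refine ⟨z.2, Subgroup.mem_centralizer_iff.mpr ?_⟩
        intro y hy
        have := Subgroup.mem_center_iff.mp hz ⟨y, hy⟩
        exact congrArg Subtype.val this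
      rw [Subgroup.card_eq_one] at h3
      rw [h3, Subgroup.mem_bot] at h4
      exact Subtype.ext (Subtype.ext h4)
    have hZd : Nat.card Z0 ∣ 16 := hKc ▸ Subgroup.card_dvd_of_le hZK
    let f : Function.End Z0 := fun z => ⟨x * z * x⁻¹, hZn.conj_mem _ z.2 x⟩
    have hf : ∀ n : ℕ, ∀ z : Z0, ((f ^ n) z : G) = x ^ n * z * (x ^ n)⁻¹ := by
      intro n
      induction n with
      | zero =>
        intro z
        rw [pow_zero, pow_zero]
        show (z : G) = 1 * z * 1⁻¹
        group
      | succ n ih =>
        intro z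
        rw [pow_succ]
        show ((f ^ n) (f z) : G) = _
        rw [ih]
        show x ^ n * (x * z * x⁻¹) * (x ^ n)⁻¹ = _
        rw [pow_succ, mul_inv_rev]
        simp only [mul_assoc]
    have hf5 : f ^ 5 ^ 1 = 1 := by
      funext z
      apply Subtype.ext
      rw [hf, pow_one, ← hx, pow_orderOf_eq_one]
      show (1 : G) * z * 1⁻¹ = z
      group
    have := Fintype.ofFinite Z0
    have hmod := Equiv.Perm.card_fixedPoints_modEq hf5
    have hfix : Fintype.card (Function.fixedPoints f) = 1 := by
      rw [Fintype.card_eq_one_iff]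
      refine ⟨⟨1, ?_⟩, ?_⟩
      · show f 1 = 1
        apply Subtype.ext
        show x * 1 * x⁻¹ = 1
        simp
      · rintro ⟨z, hz⟩
        have hz' : x * z * x⁻¹ = z := congrArg Subtype.val hz
        have h1 : (z : G) ∈ normalizer (zpowers x : Set G) := by
          have hcen : (z : G) ∈ centralizer ((zpowers x : Subgroup G) : Set G) := by
            rw [Subgroup.mem_centralizer_iff]
            intro y hy
            obtain ⟨a, rfl⟩ := Subgroup.mem_zpowers_iff.mp (show y ∈ zpowers x from hy)
            have : Commute x (z : G) := by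
              show x * z = z * x
              calc x * (z : G) = (x * z * x⁻¹) * x := by group
                _ = z * x := by rw [hz']
            exact this.zpow_left a
          exact Subgroup.centralizer_le_normalizer _ hcen
        rw [hN] at h1
        have h2 : orderOf (z : G) ∣ 5 := by
          rw [← card_zp x hx, ← Subgroup.orderOf_mk (z : G) h1]
          exact orderOf_dvd_natCard _
        have h3 : orderOf (z : G) ∣ 16 := by
          rw [← hKc, ← Subgroup.orderOf_mk (z : G) (hZK z.2)]
          exact orderOf_dvd_natCard _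
        have h4 : orderOf (z : G) ∣ 1 := by
          have := Nat.dvd_gcd h2 h3
          simpa using this
        have h5 : (z : G) = 1 := by
          rw [← orderOf_eq_one_iff]; exact Nat.dvd_one.mp h4
        exact Subtype.ext (Subtype.ext h5)
    rw [hfix, ← Nat.card_eq_fintype_card] at hmod
    have hZ16 : Nat.card Z0 = 16 := by
      have h16 : Nat.card Z0 ≤ 16 := Nat.le_of_dvd (by norm_num) hZd
      have hm : Nat.card Z0 % 5 = 1 := hmod
      generalize Nat.card Z0 = c at *
      interval_cases c <;> omega
    have hZK' : Z0 = K := Subgroup.eq_of_le_of_card_ge hZK (by rw [hZ16, hKc])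
    obtain ⟨a, ha, b, hb, hne⟩ := hab K hKc
    rw [← hZK'] at ha
    have := Subgroup.mem_centralizer_iff.mp ha.2 b hb
    exact hne this.symm

variable {A : Type} [Group A] [Finite A]

theorem small_classes (hA : Nat.card A = 1440) (N : Subgroup A) (hN : Nat.card N = 720)
    (hc : ∀ x : A, orderOf x = 5 → Nat.card (centralizer ({x} : Set A)) ∣ 10)
    (hab : ∀ K : Subgroup A, Nat.card K = 16 → ∃ a ∈ K, ∃ b ∈ K, a * b ≠ b * a)
    (H : Subgroup A) (h3 : ¬ 3 ∣ Nat.card H) :
    Nat.card H = 32 ∨ Nat.card (ConjClasses H) ≤ 10 := by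
  classical
  have : Fact (Nat.Prime 5) := ⟨by norm_num⟩
  have hcH : ∀ H : Subgroup A, ∀ x : H, orderOf x = 5 → Nat.card (centralizer ({x} : Set H)) ∣ 10 := by
    intro H x hx
    have h1 : orderOf (x : A) = 5 := by rw [Subgroup.orderOf_coe]; exact hx
    refine dvd_trans ?_ (hc _ h1)
    have h2 : (centralizer ({x} : Set H)).map H.subtype ≤ centralizer ({(x : A)} : Set A) := by
      rintro _ ⟨y, hy, rfl⟩
      rw [Subgroup.mem_centralizer_singleton_iff]
      have := Subgroup.mem_centralizer_singleton_iff.mp hy
      exact congrArg Subtype.val this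
    have h4 := Subgroup.card_dvd_of_le h2
    rwa [Subgroup.card_map_of_injective H.subtype_injective] at h4
  have habH : ∀ H : Subgroup A, ∀ K : Subgroup H, Nat.card K = 16 → ∃ a ∈ K, ∃ b ∈ K, a * b ≠ b * a := by
    intro H K hK
    obtain ⟨a, ⟨a', ha', rfl⟩, b, ⟨b', hb', rfl⟩, hne⟩ := hab (K.map H.subtype)
      (by rw [Subgroup.card_map_of_injective H.subtype_injective]; exact hK)
    exact ⟨a', ha', b', hb', fun h => hne (congrArg Subtype.val h)⟩
  have h80 : ∀ H : Subgroup A, Nat.card H ≠ 80 := fun H h => no_eighty h (hcH H) (habH H)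
  have hdvd : Nat.card H ∣ 160 := by
    have h1 : Nat.card H ∣ 1440 := hA ▸ Subgroup.card_subgroup_dvd_card H
    have h2 : Nat.Coprime (Nat.card H) 9 := by
      have : Nat.Coprime (Nat.card H) 3 := ((Nat.Prime.coprime_iff_not_dvd Nat.prime_three).mpr h3).symm
      exact Nat.Coprime.pow_right 2 this
    exact Nat.Coprime.dvd_of_dvd_mul_right h2 (by simpa using h1)
  have hmem : Nat.card H ∈ Nat.divisors 160 := Nat.mem_divisors.mpr ⟨hdvd, by norm_num⟩
  have hdiv : Nat.divisors 160 = {1, 2, 4, 5, 8, 10, 16, 20, 32, 40, 80, 160} := by decide +kernel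
  rw [hdiv] at hmem
  simp only [Finset.mem_insert, Finset.mem_singleton] at hmem
  have hle : Nat.card (ConjClasses H) ≤ Nat.card H :=
    Nat.card_le_card_of_surjective ConjClasses.mk ConjClasses.mk_surjective
  have h2040 : Nat.card H = 20 ∨ Nat.card H = 40 → Nat.card (ConjClasses H) ≤ 10 := by
    intro h
    obtain ⟨x, hx⟩ := exists_prime_orderOf_dvd_card' (G := H) 5 (by rcases h with h | h <;> rw [h] <;> norm_num)
    have hn : (zpowers x).Normal := by
      rcases h with h | h
      · rcases normal_of_card_sylow x hx 4 (by rw [h]) (by norm_num) (by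
          intro n hn h
          have h16 : n ≤ 4 := Nat.le_of_dvd (by norm_num) hn
          interval_cases n <;> omega) with h' | ⟨h', -⟩
        · exact h'
        · omega
      · rcases normal_of_card_sylow x hx 8 (by rw [h]) (by norm_num) (by
          intro n hn h
          have h16 : n ≤ 8 := Nat.le_of_dvd (by norm_num) hn
          interval_cases n <;> omega) with h' | ⟨h', -⟩
        · exact h'
        · omega
    exact conj_le_of_normal_five x hx hn h (hcH H x hx)
  rcases hmem with h | h | h | h | h | h | h | h | h | h | h | h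
  · right; omega
  · right; omega
  · right; omega
  · right; omega
  · right; omega
  · right; omega
  · right
    obtain ⟨a, ha, b, hb, hne⟩ := hab H h
    exact conj_le_of_card_sixteen h ⟨⟨a, ha⟩, ⟨b, hb⟩, fun h => hne (congrArg Subtype.val h)⟩
  · right; exact h2040 (Or.inl h)
  · left; exact h
  · right; exact h2040 (Or.inr h)
  · exact absurd h (h80 H)
  · exfalso
    have h1 : ¬ H ≤ N := by
      intro h1
      have := Subgroup.card_dvd_of_le h1
      rw [h, hN] at this
      omega
    have h2 : N.index = 2 := by
      have := N.card_mul_index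
      rw [hN, hA] at this
      omega
    have h4 : (H ⊓ N).relIndex H ∣ 2 := by
      rw [Subgroup.inf_relIndex_left]
      have : N.Normal := Subgroup.normal_of_index_eq_two h2
      rw [← h2]
      exact Subgroup.relIndex_dvd_index_of_normal N H
    have h5 : Nat.card (H ⊓ N : Subgroup A) * (H ⊓ N).relIndex H = Nat.card H := by
      have h7 := ((H ⊓ N).subgroupOf H).card_mul_index
      rwa [Nat.card_congr (Subgroup.subgroupOfEquivOfLe (inf_le_left : H ⊓ N ≤ H)).toEquiv] at h7
    rcases (Nat.dvd_prime Nat.prime_two).mp h4 with h6 | h6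
    · rw [h6, mul_one] at h5
      apply h1
      have := Subgroup.eq_of_le_of_card_ge (inf_le_left : H ⊓ N ≤ H) (by rw [h5])
      rw [← this]; exact inf_le_right
    · rw [h6, h] at h5
      exact h80 (H ⊓ N) (by omega)

end Pool.Agent.Q21.PR
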