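import Pool.Agent.Q21.PR.A
import Pool.Agent.Q21.PR.Sub2
import Pool.Agent.Q21.PR.Gal

/-!
# Subgroups and classes of `PΓL₂(9)`
-/

set_option autoImplicit false

namespace Pool.Agent.Q21.PR

open Subgroup Pointwise

/-- the parity homomorphism with kernel `PGL₂(9)` -/
def χ : A →* Multiplicative (ZMod 2) := (MonoidHom.snd _ _).comp A.subtype

theorem χ_val (e : A) : (Multiplicative.toAdd (χ e)).val = xx (e : E) := rfl

theorem χ_eq_one_iff (e : A) : χ e = 1 ↔ xx (e : E) = 0 := by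
  rw [← χ_val, ZMod.val_eq_zero]
  rfl

theorem card_eq_cntB (q : ℕ → Bool) (hq : ∀ k, q k = true → vd k = true) :
    Nat.card {e : A // q (kk e) = true} = cntB 2000 q := by
  rw [cntB_spec, ← Nat.card_eq_finsetCard]
  refine Nat.card_eq_of_bijective (fun e => ⟨kk e.1, by
    rw [Finset.mem_filter, Finset.mem_range]; exact ⟨kk_lt _, e.2⟩⟩) ⟨?_, ?_⟩
  · intro e f h
    have h1 : kk (e.1 : E) = kk (f.1 : E) := congrArg Subtype.val h
    exact Subtype.ext (Subtype.ext (kk_inj e.1.2 f.1.2 h1))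
  · rintro ⟨k, hk⟩
    rw [Finset.mem_filter, Finset.mem_range] at hk
    obtain ⟨e, he, hek⟩ := exists_of_vd hk.1 (hq k hk.2)
    refine ⟨⟨⟨e, he⟩, by show q (kk e) = true; rw [hek]; exact hk.2⟩, ?_⟩
    exact Subtype.ext hek

theorem vd_kk (e : A) : vd (kk (e : E)) = true := InA.vd e.2

theorem card_A : Nat.card A = 1440 := by
  rw [← cnt_all, ← card_eq_cntB vd (fun _ h => h)]
  exact Nat.card_congr (Equiv.subtypeUnivEquiv vd_kk).symm

theorem card_N : Nat.card χ.ker = 720 := by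
  rw [← cnt_even, ← card_eq_cntB (fun k => and (vd k) (Nat.beq (px k) 0)) (fun k h => by
    have h' : (vd k && Nat.beq (px k) 0) = true := h
    rw [Bool.and_eq_true] at h'; exact h'.1)]
  refine Nat.card_congr (Equiv.subtypeEquivRight fun e => ?_)
  rw [MonoidHom.mem_ker, χ_eq_one_iff, vd_kk, px_kk]
  show _ ↔ (true && Nat.beq (xx (e : E)) 0) = true
  rw [Bool.true_and, Nat.beq_eq]

theorem comm_iff (e f : A) : Commute e f ↔ cmm (cd (kk (e : E))) (cd (kk (f : E))) = true := by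
  have h1 : cd (kk (e : E)) = cod (e : E).1 := e.2
  have h2 : cd (kk (f : E)) = cod (f : E).1 := f.2
  have h3 : cmm (cd (kk (e : E))) (cd (kk (f : E))) = Nat.beq (cmp (cod (e : E).1) (cod (f : E).1))
    (cmp (cod (f : E).1) (cod (e : E).1)) := by rw [h1, h2]; rfl
  rw [h3, Nat.beq_eq, ← cod_mul, ← cod_mul]
  constructor
  · intro h
    have h4 := congrArg (fun x : A => cod (x : E).1) h.eq
    exact h4
  · intro h
    have h4 := cod_inj h
    apply Subtype.ext
    apply Prod.ext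
    · exact h4
    · show (e : E).2 * (f : E).2 = (f : E).2 * (e : E).2
      exact mul_comm _ _

/-- the element of order five -/
def u0 : A := ⟨gen 2, gen_mem (by norm_num) (by norm_num)⟩

theorem cd_u0 : cd (kk (u0 : E)) = cg 2 := by
  have h : cd (kk (u0 : E)) = cod (u0 : E).1 := u0.2
  rw [h]; exact (cod_gen (by norm_num) (by norm_num)).1

theorem u0_pow : u0 ^ 5 = 1 := by
  apply Subtype.ext
  show (gen 2) ^ 5 = 1
  decide +kernel

theorem orderOf_u0 : orderOf u0 = 5 := by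
  have : Fact (Nat.Prime 5) := ⟨by norm_num⟩
  refine orderOf_eq_prime u0_pow ?_
  intro h
  have h1 : (gen 2 : E) = 1 := congrArg Subtype.val h
  revert h1
  decide +kernel

theorem card_cent_u0 : Nat.card (centralizer ({u0} : Set A)) = 10 := by
  refine Eq.trans ?_ cnt_cent
  rw [← card_eq_cntB (fun k => and (vd k) (cmm (cd k) (cg 2))) (fun k h => by
    have h' : (vd k && cmm (cd k) (cg 2)) = true := h
    rw [Bool.and_eq_true] at h'; exact h'.1)]
  refine Nat.card_congr (Equiv.subtypeEquivRight fun e => ?_)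
  rw [mem_centralizer_singleton_iff, vd_kk, ← cd_u0]
  show _ ↔ (true && cmm (cd (kk (e : E))) (cd (kk (u0 : E)))) = true
  rw [Bool.true_and, ← comm_iff]
  rfl

theorem card_cent_conj {G : Type} [Group G] (g x : G) :
    Nat.card (centralizer ({g * x * g⁻¹} : Set G)) = Nat.card (centralizer ({x} : Set G)) := by
  refine Nat.card_congr ⟨fun c => ⟨g⁻¹ * c * g, ?_⟩, fun c => ⟨g * c * g⁻¹, ?_⟩, ?_, ?_⟩
  · have h := mem_centralizer_singleton_iff.mp c.2
    rw [mem_centralizer_singleton_iff]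
    calc g⁻¹ * (c : G) * g * x = g⁻¹ * ((c : G) * (g * x * g⁻¹)) * g := by group
      _ = x * (g⁻¹ * c * g) := by rw [h]; group
  · have h := mem_centralizer_singleton_iff.mp c.2
    rw [mem_centralizer_singleton_iff]
    calc g * (c : G) * g⁻¹ * (g * x * g⁻¹) = g * ((c : G) * x) * g⁻¹ := by group
      _ = g * x * g⁻¹ * (g * c * g⁻¹) := by rw [h]; group
  · intro c; apply Subtype.ext; show g * (g⁻¹ * (c : G) * g) * g⁻¹ = c; group
  · intro c; apply Subtype.ext; show g⁻¹ * (g * (c : G) * g⁻¹) * g = c; group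

/-- conjugacy of subgroups of maximal prime power order -/
theorem conj_of_card {G : Type} [Group G] [Finite G] (p : ℕ) [Fact p.Prime] (H K : Subgroup G)
    (hH : Nat.card H = p ^ (Nat.card G).factorization p) (hK : Nat.card K = p ^ (Nat.card G).factorization p) :
    ∃ g : G, ∀ x, x ∈ H ↔ g * x * g⁻¹ ∈ K := by
  obtain ⟨g, hg⟩ := MulAction.exists_smul_eq G (Sylow.ofCard H hH) (Sylow.ofCard K hK)
  refine ⟨g, fun x => ?_⟩
  have h1 : MulAut.conj g • H = K := congrArg Sylow.toSubgroup hg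
  rw [← h1, ← MulAut.conj_apply]
  exact (Subgroup.smul_mem_pointwise_smul_iff (a := MulAut.conj g) (S := H) (x := x)).symm

theorem fac5 : (Nat.card A).factorization 5 = 1 := by
  rw [card_A, show (1440 : ℕ) = 5 * 288 from rfl, Nat.factorization_mul (by norm_num) (by norm_num)]
  have h1 : Nat.factorization 5 5 = 1 := Nat.Prime.factorization_self (by norm_num)
  have h2 : Nat.factorization 288 5 = 0 := Nat.factorization_eq_zero_of_not_dvd (by norm_num)
  simp [h1, h2]

theorem fac2 : (Nat.card A).factorization 2 = 5 := by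
  rw [card_A, show (1440 : ℕ) = 2 ^ 5 * 45 from rfl, Nat.factorization_mul (by norm_num) (by norm_num)]
  have h1 : Nat.factorization (2 ^ 5) 2 = 5 := by
    rw [Nat.Prime.factorization_pow Nat.prime_two]; simp
  have h2 : Nat.factorization 45 2 = 0 := Nat.factorization_eq_zero_of_not_dvd (by norm_num)
  rw [Finsupp.add_apply, h1, h2]

theorem card_cent_five (x : A) (hx : orderOf x = 5) : Nat.card (centralizer ({x} : Set A)) ∣ 10 := by
  have : Fact (Nat.Prime 5) := ⟨by norm_num⟩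
  obtain ⟨g, hg⟩ := conj_of_card 5 (zpowers x) (zpowers u0) (by rw [card_zp x hx, fac5, pow_one])
    (by rw [card_zp u0 orderOf_u0, fac5, pow_one])
  have h1 : g * x * g⁻¹ ∈ zpowers u0 := (hg x).mp (mem_zpowers x)
  have h2 : g * x * g⁻¹ ≠ 1 := by
    intro h
    have h3 : x = 1 := by
      have : x = g⁻¹ * (g * x * g⁻¹) * g := by group
      rw [this, h]; group
    rw [h3, orderOf_one] at hx
    omega
  rw [← card_cent_conj g x]
  have h3 : centralizer ({g * x * g⁻¹} : Set A) = centralizer ({u0} : Set A) := by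
    ext c
    rw [mem_centralizer_singleton_iff, mem_centralizer_singleton_iff]
    constructor
    · intro h
      exact comm_of_comm u0 orderOf_u0 h1 h2 h
    · intro h
      obtain ⟨k, hk⟩ := mem_zpowers_iff.mp h1
      have h' : Commute c u0 := h
      rw [← hk]
      exact h'.zpow_right k
  rw [h3, card_cent_u0]

/-- the normalizer of `{0, ∞}` -/
def P0 : Subgroup A where
  carrier := {e | ((e : E).1 0 = 0 ∧ (e : E).1 9 = 9) ∨ ((e : E).1 0 = 9 ∧ (e : E).1 9 = 0)}
  one_mem' := Or.inl ⟨rfl, rfl⟩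
  mul_mem' := by
    rintro e f (⟨h1, h2⟩ | ⟨h1, h2⟩) (⟨h3, h4⟩ | ⟨h3, h4⟩)
    · left
      refine ⟨?_, ?_⟩
      · show (e : E).1 ((f : E).1 0) = 0; rw [h3, h1]
      · show (e : E).1 ((f : E).1 9) = 9; rw [h4, h2]
    · right
      refine ⟨?_, ?_⟩
      · show (e : E).1 ((f : E).1 0) = 9; rw [h3, h2]
      · show (e : E).1 ((f : E).1 9) = 0; rw [h4, h1]
    · right
      refine ⟨?_, ?_⟩
      · show (e : E).1 ((f : E).1 0) = 9; rw [h3, h1]
      · show (e : E).1 ((f : E).1 9) = 0; rw [h4, h2]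
    · left
      refine ⟨?_, ?_⟩
      · show (e : E).1 ((f : E).1 0) = 0; rw [h3, h2]
      · show (e : E).1 ((f : E).1 9) = 9; rw [h4, h1]
  inv_mem' := by
    rintro e (⟨h1, h2⟩ | ⟨h1, h2⟩)
    · left
      exact ⟨(Equiv.Perm.inv_eq_iff_eq).mpr h1.symm, (Equiv.Perm.inv_eq_iff_eq).mpr h2.symm⟩
    · right
      exact ⟨(Equiv.Perm.inv_eq_iff_eq).mpr h2.symm, (Equiv.Perm.inv_eq_iff_eq).mpr h1.symm⟩

theorem mem_P0 (e : A) : e ∈ P0 ↔ ((e : E).1 0 = 0 ∧ (e : E).1 9 = 9) ∨ ((e : E).1 0 = 9 ∧ (e : E).1 9 = 0) :=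
  Iff.rfl

theorem stb_iff (e : A) : stb (kk (e : E)) = true ↔ e ∈ P0 := by
  have h1 : cd (kk (e : E)) = cod (e : E).1 := e.2
  have h2 : stb (kk (e : E)) = (vd (kk (e : E)) &&
    ((Nat.beq (dg (cd (kk (e : E))) (0 : Fin 10).val) 0 && Nat.beq (dg (cd (kk (e : E))) (9 : Fin 10).val) 9) ||
    (Nat.beq (dg (cd (kk (e : E))) (0 : Fin 10).val) 9 && Nat.beq (dg (cd (kk (e : E))) (9 : Fin 10).val) 0))) := rfl
  rw [h2, vd_kk, h1, dg_cod, dg_cod, mem_P0]
  simp only [Bool.true_and, Bool.or_eq_true, Bool.and_eq_true, Nat.beq_eq, Fin.ext_iff]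
  rfl

theorem card_P0 : Nat.card P0 = 32 := by
  rw [← cnt_stb, ← card_eq_cntB stb (fun k h => by
    have h' : (vd k && _) = true := h
    rw [Bool.and_eq_true] at h'; exact h'.1)]
  exact Nat.card_congr (Equiv.subtypeEquivRight fun e => (stb_iff e).symm)

theorem conj_P0 (H : Subgroup A) (hH : Nat.card H = 32) : ∃ g : A, ∀ x, x ∈ H ↔ g * x * g⁻¹ ∈ P0 := by
  have : Fact (Nat.Prime 2) := ⟨Nat.prime_two⟩
  exact conj_of_card 2 H P0 (by rw [hH, fac2]; norm_num) (by rw [card_P0, fac2]; norm_num)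

end Pool.Agent.Q21.PR
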