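import Pool.Agent.Q21.PR.A2

/-!
# Commuting pairs and class numbers of `PΓL₂(9)`
-/

set_option autoImplicit false

namespace Pool.Agent.Q21.PR

open Subgroup

/-- a generator of the torus -/
def r0 : A := ⟨gen 1, gen_mem (by norm_num) (by norm_num)⟩

theorem cd_r0 : cd (kk (r0 : E)) = cg 1 := by
  have h : cd (kk (r0 : E)) = cod (r0 : E).1 := r0.2
  rw [h]; exact (cod_gen (by norm_num) (by norm_num)).1

theorem cd_r0_sq : cd (kk ((r0 ^ 2 : A) : E)) = sq (cg 1) := by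
  have h : cd (kk ((r0 ^ 2 : A) : E)) = cod ((r0 ^ 2 : A) : E).1 := (r0 ^ 2).2
  rw [h]
  have h1 : ((r0 ^ 2 : A) : E).1 = (gen 1).1 * (gen 1).1 := by
    show ((gen 1) ^ 2).1 = _
    rw [pow_two]; rfl
  rw [h1, cod_mul, (cod_gen (by norm_num) (by norm_num)).1]
  rfl

theorem r0_mem : r0 ∈ P0 := Or.inl ⟨rfl, rfl⟩

theorem no_abelian (K : Subgroup A) (hK : Nat.card K = 16) : ∃ a ∈ K, ∃ b ∈ K, a * b ≠ b * a := by
  by_contra hcon
  push Not at hcon
  have : Fact (Nat.Prime 2) := ⟨Nat.prime_two⟩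
  obtain ⟨Q, hQ⟩ := (IsPGroup.of_card (p := 2) (n := 4) (by rw [hK]; norm_num) : IsPGroup 2 K).exists_le_sylow
  have hQc : Nat.card (Q : Subgroup A) = 32 := by
    rw [Q.card_eq_multiplicity, fac2]; norm_num
  obtain ⟨g, hg⟩ := conj_P0 Q hQc
  let K' : Subgroup A := K.map (MulAut.conj g).toMonoidHom
  have hK'c : Nat.card K' = 16 := by
    rw [Subgroup.card_map_of_injective (MulAut.conj g).injective, hK]
  have hK'P : K' ≤ P0 := by
    rintro _ ⟨x, hx, rfl⟩
    exact (hg x).mp (hQ hx)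
  have hidx : (K'.subgroupOf P0).index = 2 := by
    have h1 := (K'.subgroupOf P0).card_mul_index
    rw [Nat.card_congr (Subgroup.subgroupOfEquivOfLe hK'P).toEquiv, hK'c, card_P0] at h1
    omega
  have hr2 : r0 ^ 2 ∈ K' := by
    have := Subgroup.sq_mem_of_index_two hidx ⟨r0, r0_mem⟩
    rwa [Subgroup.mem_subgroupOf] at this
  have hcomm : ∀ a ∈ K', ∀ b ∈ K', a * b = b * a := by
    rintro _ ⟨a, ha, rfl⟩ _ ⟨b, hb, rfl⟩
    rw [← map_mul, ← map_mul, hcon a ha b hb]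
  let C : Subgroup A := P0 ⊓ centralizer ({r0 ^ 2} : Set A)
  have hCc : Nat.card C = 16 := by
    refine Eq.trans ?_ cnt_stb2
    rw [← card_eq_cntB (fun k => and (stb k) (cmm (cd k) (sq (cg 1)))) (fun k h => by
      have h' : (stb k && cmm (cd k) (sq (cg 1))) = true := h
      rw [Bool.and_eq_true] at h'
      have h'' : (vd k && _) = true := h'.1
      rw [Bool.and_eq_true] at h''; exact h''.1)]
    refine Nat.card_congr (Equiv.subtypeEquivRight fun e => ?_)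
    have h1 : e ∈ C ↔ e ∈ P0 ∧ Commute e (r0 ^ 2) := by
      rw [Subgroup.mem_inf, mem_centralizer_singleton_iff]; rfl
    rw [h1, comm_iff, cd_r0_sq, ← stb_iff]
    show _ ↔ (stb (kk (e : E)) && cmm (cd (kk (e : E))) (sq (cg 1))) = true
    rw [Bool.and_eq_true]
  have hKC : K' = C := by
    refine Subgroup.eq_of_le_of_card_ge ?_ (by rw [hCc, hK'c])
    intro x hx
    refine ⟨hK'P hx, mem_centralizer_singleton_iff.mpr ?_⟩
    exact hcomm x hx _ hr2
  obtain ⟨ψ, hψ, hψk⟩ := exists_of_vd (k := 1190) (by norm_num) (by decide +kernel)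
  have h1 : (⟨ψ, hψ⟩ : A) ∈ C := by
    refine ⟨(stb_iff _).mp ?_, mem_centralizer_singleton_iff.mpr ?_⟩
    · show stb (kk ψ) = true
      rw [hψk]; decide +kernel
    · have h2 : Commute (⟨ψ, hψ⟩ : A) (r0 ^ 2) := by
        rw [comm_iff, cd_r0_sq]
        show cmm (cd (kk ψ)) _ = true
        rw [hψk]; decide +kernel
      exact h2
  have h2 : r0 ∈ C := ⟨r0_mem, mem_centralizer_singleton_iff.mpr (by rw [pow_two, mul_assoc])⟩
  rw [← hKC] at h1 h2
  have h3 : Commute (⟨ψ, hψ⟩ : A) r0 := hcomm _ h1 _ h2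
  rw [comm_iff, cd_r0] at h3
  change cmm (cd (kk ψ)) _ = true at h3
  rw [hψk] at h3
  revert h3
  decide +kernel

/-- position of an element of `P0` -/
def jj (e : A) : ℕ := ((e : E).1 1).val - 1 + 8 * (((e : E).1 0).val / 9) + 16 * xx (e : E)

theorem jj_spec (e : A) (he : e ∈ P0) : jj e < 32 ∧ kp (jj e) = kk (e : E) ∧ jj e / 16 = xx (e : E) := by
  have h10 : (e : E).1 1 ≠ (e : E).1 0 := fun h => absurd ((e : E).1.injective h) (by decide)
  have h19 : (e : E).1 1 ≠ (e : E).1 9 := fun h => absurd ((e : E).1.injective h) (by decide)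
  have h1 := ((e : E).1 1).isLt
  have hx := xx_lt (e : E)
  have hkk : kk (e : E) = ((e : E).1 9).val + (10 * ((e : E).1 0).val + (100 * ((e : E).1 1).val + 1000 * xx (e : E))) :=
    ky_cod _ _
  have hkp : ∀ j, kp j = (if (j / 8) % 2 = 0 then 9 else 90) + (100 * (j % 8 + 1) + 1000 * (j / 16)) := by
    intro j
    have : kp j = (cond (Nat.beq (j / 8 % 2) 0) 9 90) + (100 * (j % 8 + 1) + 1000 * (j / 16)) := rfl
    rw [this]
    congr 1
    by_cases h : j / 8 % 2 = 0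
    · rw [if_pos h, h]; rfl
    · rw [if_neg h]
      have : Nat.beq (j / 8 % 2) 0 = false := by
        rw [← Bool.not_eq_true, Nat.beq_eq]; exact h
      rw [this]; rfl
  rw [hkp, hkk]
  unfold jj
  rcases (mem_P0 e).mp he with ⟨h0, h9⟩ | ⟨h0, h9⟩
  · have h0v : ((e : E).1 0).val = 0 := by rw [h0]; rfl
    have h9v : ((e : E).1 9).val = 9 := by rw [h9]; rfl
    have h10' : ((e : E).1 1).val ≠ 0 := fun h => h10 (Fin.ext (by rw [h, h0v]))
    have h19' : ((e : E).1 1).val ≠ 9 := fun h => h19 (Fin.ext (by rw [h, h9v]))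
    rw [h0v, h9v]
    generalize ((e : E).1 1).val = a at *
    generalize xx (e : E) = x at *
    have h2 : (a - 1 + 8 * (0 / 9) + 16 * x) / 8 % 2 = 0 := by omega
    rw [if_pos h2]
    omega
  · have h0v : ((e : E).1 0).val = 9 := by rw [h0]; rfl
    have h9v : ((e : E).1 9).val = 0 := by rw [h9]; rfl
    have h10' : ((e : E).1 1).val ≠ 9 := fun h => h10 (Fin.ext (by rw [h, h0v]))
    have h19' : ((e : E).1 1).val ≠ 0 := fun h => h19 (Fin.ext (by rw [h, h9v]))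
    rw [h0v, h9v]
    generalize ((e : E).1 1).val = a at *
    generalize xx (e : E) = x at *
    have h2 : ¬ (a - 1 + 8 * (9 / 9) + 16 * x) / 8 % 2 = 0 := by omega
    rw [if_neg h2]
    omega

/-- the number of commuting pairs of given parities in a Sylow 2-subgroup -/
def bP (x y : ℕ) : ℕ := if x = 0 ∧ y = 0 then 112 else 80

theorem T_P0_le (c d : Multiplicative (ZMod 2)) :
    Nat.card (T (fun e : A => e ∈ P0 ∧ χ e = c) (fun e : A => e ∈ P0 ∧ χ e = d)) ≤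
      bP (Multiplicative.toAdd c).val (Multiplicative.toAdd d).val := by
  have hle : Nat.card (T (fun e : A => e ∈ P0 ∧ χ e = c) (fun e : A => e ∈ P0 ∧ χ e = d)) ≤
      cntB 1024 (prp (Multiplicative.toAdd c).val (Multiplicative.toAdd d).val) := by
    rw [cntB_spec, ← Nat.card_eq_finsetCard]
    refine Nat.card_le_card_of_injective (fun p => ⟨32 * jj p.1.1 + jj p.1.2, ?_⟩) ?_
    · obtain ⟨a1, a2, a3⟩ := jj_spec p.1.1 p.2.1.1
      obtain ⟨b1, b2, b3⟩ := jj_spec p.1.2 p.2.2.1.1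
      rw [Finset.mem_filter, Finset.mem_range]
      refine ⟨by omega, ?_⟩
      have e1 : (32 * jj p.1.1 + jj p.1.2) / 32 = jj p.1.1 := by omega
      have e2 : (32 * jj p.1.1 + jj p.1.2) % 32 = jj p.1.2 := by omega
      have hu : prp (Multiplicative.toAdd c).val (Multiplicative.toAdd d).val (32 * jj p.1.1 + jj p.1.2) =
        (Nat.beq ((32 * jj p.1.1 + jj p.1.2) / 32 / 16) (Multiplicative.toAdd c).val &&
        (Nat.beq ((32 * jj p.1.1 + jj p.1.2) % 32 / 16) (Multiplicative.toAdd d).val &&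
        cmm (cd (kp ((32 * jj p.1.1 + jj p.1.2) / 32))) (cd (kp ((32 * jj p.1.1 + jj p.1.2) % 32))))) := rfl
      rw [hu, e1, e2, a2, b2, a3, b3, Bool.and_eq_true, Bool.and_eq_true, Nat.beq_eq, Nat.beq_eq, ← comm_iff]
      refine ⟨?_, ?_, p.2.2.2⟩
      · rw [← χ_val, p.2.1.2]
      · rw [← χ_val, p.2.2.1.2]
    · intro p p' h
      have h1 : 32 * jj p.1.1 + jj p.1.2 = 32 * jj p'.1.1 + jj p'.1.2 := congrArg Subtype.val h
      obtain ⟨a1, a2, -⟩ := jj_spec p.1.1 p.2.1.1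
      obtain ⟨b1, b2, -⟩ := jj_spec p.1.2 p.2.2.1.1
      obtain ⟨a1', a2', -⟩ := jj_spec p'.1.1 p'.2.1.1
      obtain ⟨b1', b2', -⟩ := jj_spec p'.1.2 p'.2.2.1.1
      have e1 : jj p.1.1 = jj p'.1.1 := by omega
      have e2 : jj p.1.2 = jj p'.1.2 := by omega
      rw [e1, a2'] at a2
      rw [e2, b2'] at b2
      apply Subtype.ext
      apply Prod.ext
      · exact Subtype.ext (kk_inj p.1.1.2 p'.1.1.2 a2.symm)
      · exact Subtype.ext (kk_inj p.1.2.2 p'.1.2.2 b2.symm)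
  refine hle.trans ?_
  have hc : (Multiplicative.toAdd c).val < 2 := ZMod.val_lt _
  have hd : (Multiplicative.toAdd d).val < 2 := ZMod.val_lt _
  generalize (Multiplicative.toAdd c).val = x at *
  generalize (Multiplicative.toAdd d).val = y at *
  interval_cases x <;> interval_cases y
  · rw [cnt_00]; rfl
  · rw [cnt_01]; rfl
  · rw [cnt_10]; rfl
  · rw [cnt_11]; rfl

theorem T_H_le (H : Subgroup A) (hH : Nat.card H = 32) (c d : Multiplicative (ZMod 2)) :
    Nat.card (T (fun e : A => e ∈ H ∧ χ e = c) (fun e : A => e ∈ H ∧ χ e = d)) ≤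
      bP (Multiplicative.toAdd c).val (Multiplicative.toAdd d).val := by
  obtain ⟨g, hg⟩ := conj_P0 H hH
  refine le_trans ?_ (T_P0_le c d)
  have hχ : ∀ x : A, χ (g * x * g⁻¹) = χ x := by
    intro x
    rw [map_mul, map_mul, map_inv, mul_comm (χ g), mul_inv_cancel_right]
  refine Nat.card_le_card_of_injective (fun p => ⟨(g * p.1.1 * g⁻¹, g * p.1.2 * g⁻¹),
    ⟨(hg _).mp p.2.1.1, by show χ (g * p.1.1 * g⁻¹) = c; rw [hχ]; exact p.2.1.2⟩,
    ⟨(hg _).mp p.2.2.1.1, by show χ (g * p.1.2 * g⁻¹) = d; rw [hχ]; exact p.2.2.1.2⟩, ?_⟩) ?_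
  · have := p.2.2.2
    show g * p.1.1 * g⁻¹ * (g * p.1.2 * g⁻¹) = g * p.1.2 * g⁻¹ * (g * p.1.1 * g⁻¹)
    calc g * p.1.1 * g⁻¹ * (g * p.1.2 * g⁻¹) = g * (p.1.1 * p.1.2) * g⁻¹ := by group
      _ = g * p.1.2 * g⁻¹ * (g * p.1.1 * g⁻¹) := by rw [this.eq]; group
  · intro p p' h
    have h1 : (g * p.1.1 * g⁻¹, g * p.1.2 * g⁻¹) = (g * p'.1.1 * g⁻¹, g * p'.1.2 * g⁻¹) := congrArg Subtype.val h
    obtain ⟨ha, hb⟩ := Prod.mk.inj h1
    apply Subtype.ext
    apply Prod.ext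
    · exact mul_left_cancel (mul_right_cancel ha)
    · exact mul_left_cancel (mul_right_cancel hb)

/-- splitting commuting pairs according to parities -/
theorem T_fiber {X Y : Type} [Group X] [Finite X] [Fintype Y] (f : X → Y) (P Q : X → Prop) :
    Nat.card (T P Q) = ∑ q : Y × Y, Nat.card (T (fun x => P x ∧ f x = q.1) (fun x => Q x ∧ f x = q.2)) := by
  rw [← Nat.card_sigma]
  refine Nat.card_congr ⟨fun p => ⟨(f p.1.1, f p.1.2), ⟨p.1, ⟨p.2.1, rfl⟩, ⟨p.2.2.1, rfl⟩, p.2.2.2⟩⟩,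
    fun p => ⟨p.2.1, p.2.2.1.1, p.2.2.2.1.1, p.2.2.2.2⟩, fun p => rfl, ?_⟩
  rintro ⟨⟨c, d⟩, ⟨p, ⟨h1, h2⟩, ⟨h3, h4⟩, h5⟩⟩
  dsimp only at h2 h4
  subst h2 h4
  rfl

/-- behaviour of the class numbers -/
def swx (x i : ℕ) : ℕ := if x = 0 then i else sw i

theorem sw_sw {i : ℕ} (h : i < 16) : sw (sw i) = i := by
  interval_cases i <;> rfl

theorem ti_lt (k : ℕ) : ti k < 16 := by
  have h1 : ti k = (TI >>> (4 * k)) &&& (2 ^ 4 - 1) := rfl
  rw [h1, Nat.and_two_pow_sub_one_eq_mod]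
  exact Nat.mod_lt _ (by norm_num)

theorem chk4_spec {g k : ℕ} (h0 : 0 < g) (h4 : g < 4) (hk : k < 2000) : chk4 g k = true := by
  interval_cases g
  · exact allB_spec chk4_all1 _ hk
  · exact allB_spec chk4_all2 _ hk
  · exact allB_spec chk4_all3 _ hk

theorem swx_xg {g : ℕ} (h0 : 0 < g) (h4 : g < 4) (i : ℕ) :
    cond (Nat.beq g 3) (sw i) i = swx (xg g) i := by
  interval_cases g <;> rfl

theorem ti_gen {g : ℕ} (h0 : 0 < g) (h4 : g < 4) {x : E} (hx : InA x) :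
    ti (kk (gen g * x * (gen g)⁻¹)) = swx (xg g) (ti (kk x)) := by
  obtain ⟨h1, h2, h3, h5⟩ := cod_gen h0 h4
  have hk : kk (gen g * x * (gen g)⁻¹) = ky (cmp (cmp (cg g) (cd (kk x))) (ci g)) (px (kk x)) := by
    have h8 := xx_lt x
    have h6 : xg g < 2 := by rw [← h3]; exact xx_lt _
    have h7 : ∀ a b : ℕ, a < 2 → b < 2 → ((a + b) % 2 + a) % 2 = b := by
      intro a b ha hb; omega
    rw [kk_mul, show (gen g * x).1 = (gen g).1 * x.1 from rfl, cod_mul, h1, h2, xx_mul, h3, h5, px_kk, hx,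
      h7 _ _ h6 h8]
  have hc : chk4 g (kk x) = true := chk4_spec h0 h4 (kk_lt x)
  have hu : chk4 g (kk x) = (!(PR.vd (kk x)) || Nat.beq (ti (ky (cmp (cmp (cg g) (cd (kk x))) (ci g)) (px (kk x))))
    (cond (Nat.beq g 3) (sw (ti (kk x))) (ti (kk x)))) := rfl
  rw [hu, hx.vd] at hc
  have hc' := Nat.beq_eq.mp (by simpa using hc)
  rw [hk, hc', swx_xg h0 h4]

theorem swx_swx {x y i : ℕ} (hx : x < 2) (hy : y < 2) (hi : i < 16) : swx x (swx y i) = swx ((x + y) % 2) i := by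
  interval_cases x <;> interval_cases y <;> simp [swx, sw_sw hi]

theorem ti_conj {e x : E} (he : InA e) (hx : InA x) :
    ti (kk (e * x * e⁻¹)) = swx (xx e) (ti (kk x)) := by
  induction h : td (kk e) using Nat.strong_induction_on generalizing e with
  | _ n ih =>
    by_cases h1 : e = 1
    · rw [h1, one_mul, inv_one, mul_one]; rfl
    · obtain ⟨g, h0, h4, e', he', hee, hd⟩ := InA_pred he h1
      have h2 := ih _ (h ▸ hd) he' rfl
      have h3 : e * x * e⁻¹ = gen g * (e' * x * e'⁻¹) * (gen g)⁻¹ := by rw [hee]; group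
      have h5 : InA (e' * x * e'⁻¹) := A.mul_mem (A.mul_mem he' hx) (A.inv_mem he')
      have h6 : xg g < 2 := by rw [← (cod_gen h0 h4).2.2.1]; exact xx_lt _
      rw [h3, ti_gen h0 h4 h5, h2, swx_swx h6 (xx_lt _) (ti_lt _), hee, xx_mul, (cod_gen h0 h4).2.2.1]

/-- class representatives -/
theorem exists_rep {i : ℕ} (hi : i < 14) : ∃ e : A, ti (kk (e : E)) = i ∧
    xx (e : E) = (if 10 ≤ i then 1 else 0) ∧ e ^ 40 = 1 := by
  have hc : chk5 i = true := allB_spec chk5_all _ hi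
  have hu : chk5 i = (vd (rp i) && (Nat.beq (ti (rp i)) i && (Nat.beq (px (rp i)) (cond (Nat.ble 10 i) 1 0) &&
    Nat.beq (cmp (sq (sq (sq (sq (sq (cd (rp i))))))) (sq (sq (sq (cd (rp i)))))) (cd k1)))) := rfl
  rw [hu] at hc
  simp only [Bool.and_eq_true, Nat.beq_eq] at hc
  obtain ⟨h1, h2, h3, h4⟩ := hc
  have hlt : rp i < 2000 := by
    interval_cases i <;> decide +kernel
  obtain ⟨e, he, hek⟩ := exists_of_vd hlt h1
  refine ⟨⟨e, he⟩, ?_, ?_, ?_⟩
  · show ti (kk e) = i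
    rw [hek, h2]
  · show xx e = _
    rw [← px_kk, hek, h3]
    by_cases h10 : 10 ≤ i
    · rw [if_pos h10, Nat.ble_eq_true_of_le h10]; rfl
    · rw [if_neg h10]
      have : Nat.ble 10 i = false := by
        rw [← Bool.not_eq_true, Nat.ble_eq]; exact h10
      rw [this]; rfl
  · apply Subtype.ext
    show e ^ 40 = 1
    have hsq : ∀ f : E, cod (f ^ 2).1 = sq (cod f.1) := by
      intro f
      rw [show (f ^ 2).1 = f.1 * f.1 by rw [pow_two]; rfl, cod_mul]; rfl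
    have h5 : cod e.1 = cd (rp i) := by rw [← hek]; exact he.symm
    apply Prod.ext
    · apply cod_inj
      have h6 : e ^ 40 = (((((e ^ 2) ^ 2) ^ 2) ^ 2) ^ 2) * (((e ^ 2) ^ 2) ^ 2) := by
        simp only [← pow_mul, ← pow_add]
      rw [h6, show ((((((e ^ 2) ^ 2) ^ 2) ^ 2) ^ 2) * (((e ^ 2) ^ 2) ^ 2)).1 =
        ((((((e ^ 2) ^ 2) ^ 2) ^ 2) ^ 2)).1 * (((e ^ 2) ^ 2) ^ 2).1 from rfl, cod_mul]
      simp only [hsq, h5]
      rw [h4]
      have h7 : cd k1 = cod (1 : E).1 := by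
        rw [← InA_one, kk_one]; rfl
      exact h7
    · show e.2 ^ 40 = 1
      have h8 : e.2 ^ 2 = 1 := by
        have : ∀ z : Multiplicative (ZMod 2), z ^ 2 = 1 := by decide
        exact this _
      rw [show (40 : ℕ) = 2 * 20 from rfl, pow_mul, h8, one_pow]

end Pool.Agent.Q21.PR
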