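import Pool.Agent.Q21.PR.L

/-!
# The fibre product and its subgroups of order prime to three
-/

set_option autoImplicit false

namespace Pool.Agent.Q21.PR

open L

/-- difference of the parities -/
def par : A × L →* Multiplicative (ZMod 2) where
  toFun g := χ g.1 * (ψ g.2)⁻¹
  map_one' := by simp
  map_mul' g h := by
    simp only [Prod.fst_mul, Prod.snd_mul, map_mul, mul_inv]
    exact mul_mul_mul_comm _ _ _ _

/-- the group of order 92160 -/
def G : Subgroup (A × L) := par.ker

theorem mem_G {g : A × L} : g ∈ G ↔ χ g.1 = ψ g.2 := by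
  show par g = 1 ↔ _
  exact mul_inv_eq_one

instance : Finite G := inferInstance

theorem card_G : Nat.card G = 92160 := by
  have h := G.card_mul_index
  have h1 : G.index = 2 := by
    show par.ker.index = 2
    rw [Subgroup.index_ker]
    have h2 : par.range = ⊤ := by
      rw [MonoidHom.range_eq_top]
      intro c
      refine ⟨(1, ⟨0, 0, 0, Multiplicative.toAdd c⁻¹, 0, 0, 0⟩), ?_⟩
      show χ 1 * (c⁻¹)⁻¹ = c
      rw [map_one, one_mul, inv_inv]
    rw [h2, Subgroup.card_top, Nat.card_congr Multiplicative.toAdd, Nat.card_zmod]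
  rw [h1, Nat.card_prod, card_A, card_L] at h
  omega

/-- the conjugation invariant -/
def V (g : G) : ℕ := vn (128 * ti (kk (g.1.1 : E)) + κ0 g.1.2)

theorem swk_spec : ∀ k : ℕ, k < 128 → swk k < 128 ∧ swk (swk k) = k := by decide +kernel

theorem κ0_lt (x : L) : κ0 x < 128 := (κ_swk _ _ _ _ _ _ _).2

theorem vn_eq (i k : ℕ) (hk : k < 128) : vn (128 * i + k) = min (128 * i + k) (128 * sw i + swk k) := by
  have h : vn (128 * i + k) = min (128 * i + k) (128 * sw ((128 * i + k) / 128) + swk ((128 * i + k) % 128)) := rfl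
  rw [h, show (128 * i + k) / 128 = i by omega, show (128 * i + k) % 128 = k by omega]

theorem V_conj (g h : G) : V (g * h * g⁻¹) = V h := by
  have h1 := ti_conj (e := (g.1.1 : E)) (x := (h.1.1 : E)) g.1.1.2 h.1.1.2
  have h2 := κ0_conj g.1.2 h.1.2
  have h3 : χ g.1.1 = ψ g.1.2 := mem_G.mp g.2
  have h4 : V (g * h * g⁻¹) = vn (128 * ti (kk ((g.1.1 : E) * (h.1.1 : E) * (g.1.1 : E)⁻¹)) +
    κ0 (g.1.2 * h.1.2 * g.1.2⁻¹)) := rfl
  rw [h4, h1, h2]
  have hk := κ0_lt h.1.2
  by_cases h5 : ψ g.1.2 = 1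
  · rw [if_pos h5]
    rw [h5, χ_eq_one_iff] at h3
    rw [h3]; rfl
  · rw [if_neg h5]
    have h6 : xx (g.1.1 : E) ≠ 0 := by
      intro h
      apply h5
      rw [← h3]
      exact (χ_eq_one_iff _).mpr h
    have h7 : swx (xx (g.1.1 : E)) (ti (kk (h.1.1 : E))) = sw (ti (kk (h.1.1 : E))) := if_neg h6
    obtain ⟨h8, h9⟩ := swk_spec _ hk
    rw [h7]
    show _ = vn (128 * ti (kk (h.1.1 : E)) + κ0 h.1.2)
    rw [vn_eq _ _ h8, vn_eq _ _ hk, h9, sw_sw (ti_lt _), min_comm]

theorem exists_witness {p : ℕ} (hp : p < 1792) (hw : wit p = true) : ∃ g : G, V g = p ∧ g ^ 40 = 1 := by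
  have hu : wit p = ((Nat.blt (p % 128) 64 || Nat.beq (Nat.land (p % 128) 62) 0) &&
    (Nat.beq (Nat.land (Nat.shiftRight p 3) 1) (cond (Nat.ble 10 (p / 128)) 1 0) && Nat.beq (vn p) p)) := rfl
  rw [hu] at hw
  simp only [Bool.and_eq_true, Bool.or_eq_true, Nat.beq_eq, Nat.blt_eq] at hw
  obtain ⟨h1, h2, h3⟩ := hw
  obtain ⟨e, he1, he2, he3⟩ := exists_rep (i := p / 128) (by omega)
  obtain ⟨hd1, hd2⟩ := κ0_dec (p % 128) (Nat.mod_lt _ (by norm_num)) h1
  have hG : (e, dec (p % 128)) ∈ G := by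
    rw [mem_G]
    apply Multiplicative.toAdd.injective
    apply ZMod.val_injective 2
    show xx (e : E) = (dec (p % 128)).b0.val
    rw [he2, hd2]
    have h4 : Nat.land (Nat.shiftRight (p % 128) 3) 1 = Nat.land (Nat.shiftRight p 3) 1 := by
      have h5 : ∀ k : ℕ, Nat.land (Nat.shiftRight k 3) 1 = k / 8 % 2 := by
        intro k
        have h6 : Nat.land (Nat.shiftRight k 3) 1 = (k >>> 3) &&& (2 ^ 1 - 1) := rfl
        rw [h6, Nat.and_two_pow_sub_one_eq_mod, Nat.shiftRight_eq_div_pow]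
      rw [h5, h5]
      omega
    rw [h4, h2]
    by_cases h10 : 10 ≤ p / 128
    · rw [if_pos h10, Nat.ble_eq_true_of_le h10]; rfl
    · rw [if_neg h10]
      have : Nat.ble 10 (p / 128) = false := by
        rw [← Bool.not_eq_true, Nat.ble_eq]; exact h10
      rw [this]; rfl
  refine ⟨⟨(e, dec (p % 128)), hG⟩, ?_, ?_⟩
  · show vn (128 * ti (kk (e : E)) + κ0 (dec (p % 128))) = p
    rw [he1, hd1, Nat.div_add_mod]
    exact h3
  · apply Subtype.ext
    show (e, dec (p % 128)) ^ 40 = 1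
    rw [Prod.pow_mk, he3, show (40 : ℕ) = 4 * 10 from rfl, pow_mul, pow_four, one_pow]
    rfl

/-- at least 362 classes of elements of order prime to three -/
theorem le_regular : 362 ≤ Nat.card {c : ConjClasses G // ∀ g ∈ c.carrier, ¬ 3 ∣ orderOf g} := by
  rw [← cnt_wit, cntB_spec, ← Nat.card_eq_finsetCard]
  have hw : ∀ p : {p // p ∈ (Finset.range 1792).filter fun k => wit k = true}, ∃ g : G, V g = p.1 ∧ g ^ 40 = 1 := by
    rintro ⟨p, hp⟩
    rw [Finset.mem_filter, Finset.mem_range] at hp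
    exact exists_witness hp.1 hp.2
  choose w hw1 hw2 using hw
  refine Nat.card_le_card_of_injective (fun p => ⟨ConjClasses.mk (w p), ?_⟩) ?_
  · intro g hg h3
    rw [ConjClasses.mem_carrier_iff_mk_eq, ConjClasses.mk_eq_mk_iff_isConj, isConj_iff] at hg
    obtain ⟨c, hc⟩ := hg
    have h4 : g ^ 40 = 1 := by
      have h5 : (c * g * c⁻¹) ^ 40 = c * g ^ 40 * c⁻¹ := conj_pow
      rw [hc, hw2] at h5
      have h6 : g ^ 40 = c⁻¹ * (c * g ^ 40 * c⁻¹) * c := by group
      rw [h6, ← h5]; group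
    have h5 : 3 ∣ 40 := h3.trans (orderOf_dvd_of_pow_eq_one h4)
    omega
  · intro p q h
    have h1 : ConjClasses.mk (w p) = ConjClasses.mk (w q) := congrArg Subtype.val h
    rw [ConjClasses.mk_eq_mk_iff_isConj, isConj_iff] at h1
    obtain ⟨c, hc⟩ := h1
    apply Subtype.ext
    rw [← hw1, ← hw1, ← hc, V_conj]

section upper

variable (H : Subgroup G)

/-- first projection -/
def pr1 : H →* A := ((MonoidHom.fst A L).comp G.subtype).comp H.subtype

theorem range_not_dvd (h3 : ¬ 3 ∣ Nat.card H) : ¬ 3 ∣ Nat.card (pr1 H).range := by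
  intro h
  exact h3 (h.trans (Subgroup.card_range_dvd (pr1 H)))

/-- the kernel of the first projection -/
def sec : (pr1 H).rangeRestrict.ker →* ψ.ker where
  toFun h := ⟨((h : H) : G).1.2, by
    have h1 : χ ((h : H) : G).1.1 = ψ ((h : H) : G).1.2 := mem_G.mp ((h : H) : G).2
    have h2 : pr1 H (h : H) = 1 := congrArg Subtype.val (MonoidHom.mem_ker.mp h.2)
    rw [MonoidHom.mem_ker, ← h1]
    have h3 : ((h : H) : G).1.1 = 1 := h2
    rw [h3, map_one]⟩
  map_one' := rfl
  map_mul' _ _ := rfl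

theorem sec_inj : Function.Injective (sec H) := by
  intro h h' he
  have h1 : pr1 H (h : H) = 1 := congrArg Subtype.val (MonoidHom.mem_ker.mp h.2)
  have h2 : pr1 H (h' : H) = 1 := congrArg Subtype.val (MonoidHom.mem_ker.mp h'.2)
  have h3 : ((h : H) : G).1.2 = ((h' : H) : G).1.2 := congrArg Subtype.val he
  apply Subtype.ext
  apply Subtype.ext
  apply Subtype.ext
  exact Prod.ext (h1.trans h2.symm) h3

theorem card_ker_dvd : Nat.card (pr1 H).rangeRestrict.ker ∣ 64 := by
  rw [← card_ker]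
  exact Subgroup.card_dvd_of_injective (sec H) (sec_inj H)

theorem conj_ker_le : Nat.card (ConjClasses (pr1 H).rangeRestrict.ker) ≤ 34 ∧
    (Nat.card (pr1 H).rangeRestrict.ker ≠ 64 → Nat.card (ConjClasses (pr1 H).rangeRestrict.ker) ≤ 32) := by
  have hle : Nat.card (ConjClasses (pr1 H).rangeRestrict.ker) ≤ Nat.card (pr1 H).rangeRestrict.ker :=
    Nat.card_le_card_of_surjective ConjClasses.mk ConjClasses.mk_surjective
  have hd := card_ker_dvd H
  have h32 : Nat.card (pr1 H).rangeRestrict.ker ≠ 64 → Nat.card (pr1 H).rangeRestrict.ker ≤ 32 := by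
    intro hne
    obtain ⟨k, hk⟩ := hd
    have : 2 ≤ k := by
      rcases k with _ | _ | k
      · omega
      · omega
      · omega
    nlinarith
  refine ⟨?_, fun hne => hle.trans (h32 hne)⟩
  by_cases h64 : Nat.card (pr1 H).rangeRestrict.ker = 64
  · have h1 := card_comm_eq_card_conjClasses_mul_card (pr1 H).rangeRestrict.ker
    have h2 := card_comm_eq_card_conjClasses_mul_card ψ.ker
    rw [h64] at h1
    rw [conj_ker, card_ker] at h2
    have h3 : Nat.card {p : (pr1 H).rangeRestrict.ker × (pr1 H).rangeRestrict.ker // Commute p.1 p.2} ≤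
        Nat.card {p : ψ.ker × ψ.ker // Commute p.1 p.2} := by
      refine Nat.card_le_card_of_injective (fun p => ⟨(sec H p.1.1, sec H p.1.2), p.2.map (sec H)⟩) ?_
      intro p p' h
      have h4 := congrArg Subtype.val h
      obtain ⟨ha, hb⟩ := Prod.mk.inj h4
      exact Subtype.ext (Prod.ext (sec_inj H ha) (sec_inj H hb))
    omega
  · exact (hle.trans (h32 h64)).trans (by norm_num)

theorem card_split : Nat.card H = Nat.card (pr1 H).rangeRestrict.ker * Nat.card (pr1 H).range := by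
  have h1 := (pr1 H).rangeRestrict.ker.card_mul_index
  rw [← h1, Subgroup.index_ker]
  congr 1
  rw [MonoidHom.range_eq_top.mpr (pr1 H).rangeRestrict_surjective, Subgroup.card_top]

theorem sum_bound (h32 : Nat.card (pr1 H).range = 32) :
    Nat.card {p : H × H // Commute p.1 p.2} ≤ 735232 := by
  have h1 : Nat.card {p : H × H // Commute p.1 p.2} ≤
      Nat.card (Σ q : Multiplicative (ZMod 2) × Multiplicative (ZMod 2),
        T (fun e : A => e ∈ (pr1 H).range ∧ χ e = q.1) (fun e : A => e ∈ (pr1 H).range ∧ χ e = q.2) ×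
        T (fun x : L => ψ x = q.1) (fun x : L => ψ x = q.2)) := by
    refine Nat.card_le_card_of_injective (fun p => ⟨(χ (p.1.1 : G).1.1, χ (p.1.2 : G).1.1),
      ⟨((p.1.1 : G).1.1, (p.1.2 : G).1.1), ⟨⟨p.1.1, rfl⟩, rfl⟩, ⟨⟨p.1.2, rfl⟩, rfl⟩, ?_⟩,
      ⟨((p.1.1 : G).1.2, (p.1.2 : G).1.2), (mem_G.mp (p.1.1 : G).2).symm, (mem_G.mp (p.1.2 : G).2).symm, ?_⟩⟩) ?_
    · exact p.2.map (pr1 H)
    · exact p.2.map (((MonoidHom.snd A L).comp G.subtype).comp H.subtype)
    · intro p p' h
      have h2 := congrArg (fun s : (Σ q : Multiplicative (ZMod 2) × Multiplicative (ZMod 2),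
        T (fun e : A => e ∈ (pr1 H).range ∧ χ e = q.1) (fun e : A => e ∈ (pr1 H).range ∧ χ e = q.2) ×
        T (fun x : L => ψ x = q.1) (fun x : L => ψ x = q.2)) => (s.2.1.1, s.2.2.1)) h
      obtain ⟨ha, hb⟩ := Prod.mk.inj h2
      obtain ⟨ha1, ha2⟩ := Prod.mk.inj ha
      obtain ⟨hb1, hb2⟩ := Prod.mk.inj hb
      apply Subtype.ext
      apply Prod.ext
      · exact Subtype.ext (Subtype.ext (Prod.ext ha1 hb1))
      · exact Subtype.ext (Subtype.ext (Prod.ext ha2 hb2))
  refine h1.trans ?_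
  rw [Nat.card_sigma]
  have h2 : ∀ q : Multiplicative (ZMod 2) × Multiplicative (ZMod 2),
      Nat.card (T (fun e : A => e ∈ (pr1 H).range ∧ χ e = q.1) (fun e : A => e ∈ (pr1 H).range ∧ χ e = q.2) ×
        T (fun x : L => ψ x = q.1) (fun x : L => ψ x = q.2)) ≤
      bP (Multiplicative.toAdd q.1).val (Multiplicative.toAdd q.2).val *
      bL (Multiplicative.toAdd q.1).val (Multiplicative.toAdd q.2).val := by
    intro q
    rw [Nat.card_prod]
    refine Nat.mul_le_mul (T_H_le _ h32 _ _) (le_of_eq ?_)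
    exact card_T (Multiplicative.toAdd q.1) (Multiplicative.toAdd q.2)
  refine (Finset.sum_le_sum fun q _ => h2 q).trans ?_
  decide +kernel

/-- subgroups of order prime to three have at most 359 classes -/
theorem conj_le (h3 : ¬ 3 ∣ Nat.card H) : Nat.card (ConjClasses H) ≤ 359 := by
  have hmain := card_conj_le (pr1 H).rangeRestrict (pr1 H).rangeRestrict_surjective
  obtain ⟨hk1, hk2⟩ := conj_ker_le H
  rcases small_classes card_A χ.ker card_N card_cent_five no_abelian (pr1 H).range (range_not_dvd H h3) with h | h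
  · have h11 : Nat.card (ConjClasses (pr1 H).range) ≤ 11 := by
      have h1 := card_T_mem (pr1 H).range
      rw [h, T_fiber (fun e : A => χ e)] at h1
      have h2 : ∑ q : Multiplicative (ZMod 2) × Multiplicative (ZMod 2),
          Nat.card (T (fun e : A => e ∈ (pr1 H).range ∧ χ e = q.1) (fun e : A => e ∈ (pr1 H).range ∧ χ e = q.2)) ≤
          ∑ q : Multiplicative (ZMod 2) × Multiplicative (ZMod 2),
            bP (Multiplicative.toAdd q.1).val (Multiplicative.toAdd q.2).val :=
        Finset.sum_le_sum fun q _ => T_H_le _ h _ _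
      have h3 : ∑ q : Multiplicative (ZMod 2) × Multiplicative (ZMod 2),
            bP (Multiplicative.toAdd q.1).val (Multiplicative.toAdd q.2).val = 352 := by decide +kernel
      omega
    by_cases h64 : Nat.card (pr1 H).rangeRestrict.ker = 64
    · have h1 := card_comm_eq_card_conjClasses_mul_card H
      have h2 := sum_bound H h
      rw [h1, card_split, h64, h] at h2
      omega
    · calc Nat.card (ConjClasses H) ≤ _ := hmain
        _ ≤ 11 * 32 := Nat.mul_le_mul h11 (hk2 h64)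
        _ ≤ 359 := by norm_num
  · calc Nat.card (ConjClasses H) ≤ _ := hmain
      _ ≤ 10 * 34 := Nat.mul_le_mul h hk1
      _ ≤ 359 := by norm_num

end upper

end Pool.Agent.Q21.PR
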