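import Pool.Agent.Q21.PR.A3

/-!
# The extraspecial group of order 128
-/

set_option autoImplicit false

namespace Pool.Agent.Q21.PR

/-- the Heisenberg group over `F₂³` -/
@[ext] structure L where
  a0 : ZMod 2
  a1 : ZMod 2
  a2 : ZMod 2
  b0 : ZMod 2
  b1 : ZMod 2
  b2 : ZMod 2
  z : ZMod 2
  deriving DecidableEq

namespace L

instance : Mul L := ⟨fun x y => ⟨x.a0 + y.a0, x.a1 + y.a1, x.a2 + y.a2, x.b0 + y.b0, x.b1 + y.b1, x.b2 + y.b2,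
  x.z + y.z + x.a0 * y.b0 + x.a1 * y.b1 + x.a2 * y.b2⟩⟩
instance : One L := ⟨⟨0, 0, 0, 0, 0, 0, 0⟩⟩
instance : Inv L := ⟨fun x => ⟨-x.a0, -x.a1, -x.a2, -x.b0, -x.b1, -x.b2,
  -x.z + x.a0 * x.b0 + x.a1 * x.b1 + x.a2 * x.b2⟩⟩

@[simp] theorem mul_a0 (x y : L) : (x * y).a0 = x.a0 + y.a0 := rfl
@[simp] theorem mul_a1 (x y : L) : (x * y).a1 = x.a1 + y.a1 := rfl
@[simp] theorem mul_a2 (x y : L) : (x * y).a2 = x.a2 + y.a2 := rfl
@[simp] theorem mul_b0 (x y : L) : (x * y).b0 = x.b0 + y.b0 := rfl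
@[simp] theorem mul_b1 (x y : L) : (x * y).b1 = x.b1 + y.b1 := rfl
@[simp] theorem mul_b2 (x y : L) : (x * y).b2 = x.b2 + y.b2 := rfl
@[simp] theorem mul_z (x y : L) : (x * y).z = x.z + y.z + x.a0 * y.b0 + x.a1 * y.b1 + x.a2 * y.b2 := rfl
@[simp] theorem one_a0 : (1 : L).a0 = 0 := rfl
@[simp] theorem one_a1 : (1 : L).a1 = 0 := rfl
@[simp] theorem one_a2 : (1 : L).a2 = 0 := rfl
@[simp] theorem one_b0 : (1 : L).b0 = 0 := rfl
@[simp] theorem one_b1 : (1 : L).b1 = 0 := rfl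
@[simp] theorem one_b2 : (1 : L).b2 = 0 := rfl
@[simp] theorem one_z : (1 : L).z = 0 := rfl
@[simp] theorem inv_a0 (x : L) : (x⁻¹).a0 = -x.a0 := rfl
@[simp] theorem inv_a1 (x : L) : (x⁻¹).a1 = -x.a1 := rfl
@[simp] theorem inv_a2 (x : L) : (x⁻¹).a2 = -x.a2 := rfl
@[simp] theorem inv_b0 (x : L) : (x⁻¹).b0 = -x.b0 := rfl
@[simp] theorem inv_b1 (x : L) : (x⁻¹).b1 = -x.b1 := rfl
@[simp] theorem inv_b2 (x : L) : (x⁻¹).b2 = -x.b2 := rfl
@[simp] theorem inv_z (x : L) : (x⁻¹).z = -x.z + x.a0 * x.b0 + x.a1 * x.b1 + x.a2 * x.b2 := rfl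

instance : Group L := Group.ofLeftAxioms
  (by intro x y w; ext <;> simp <;> ring)
  (by intro x; ext <;> simp)
  (by
    intro x
    ext
    · exact neg_add_cancel _
    · exact neg_add_cancel _
    · exact neg_add_cancel _
    · exact neg_add_cancel _
    · exact neg_add_cancel _
    · exact neg_add_cancel _
    · rw [mul_z, inv_z, inv_a0, inv_a1, inv_a2, one_z]
      ring)

/-- coordinates -/
def equiv : L ≃ (ZMod 2 × ZMod 2 × ZMod 2 × ZMod 2 × ZMod 2 × ZMod 2 × ZMod 2) where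
  toFun x := (x.a0, x.a1, x.a2, x.b0, x.b1, x.b2, x.z)
  invFun v := ⟨v.1, v.2.1, v.2.2.1, v.2.2.2.1, v.2.2.2.2.1, v.2.2.2.2.2.1, v.2.2.2.2.2.2⟩
  left_inv _ := rfl
  right_inv _ := rfl

instance : Fintype L := Fintype.ofEquiv _ equiv.symm

theorem card_L : Nat.card L = 128 := by
  rw [Nat.card_congr equiv]
  simp only [Nat.card_prod, Nat.card_zmod]

theorem commute_iff (x y : L) : Commute x y ↔
    x.a0 * y.b0 + x.a1 * y.b1 + x.a2 * y.b2 = y.a0 * x.b0 + y.a1 * x.b1 + y.a2 * x.b2 := by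
  constructor
  · intro h
    have h1 : (x * y).z = (y * x).z := by rw [h.eq]
    rw [mul_z, mul_z] at h1
    linear_combination h1
  · intro h
    show x * y = y * x
    ext
    · simp [add_comm]
    · simp [add_comm]
    · simp [add_comm]
    · simp [add_comm]
    · simp [add_comm]
    · simp [add_comm]
    · rw [mul_z, mul_z]
      linear_combination h

/-- the parity of the 2-group -/
def ψ : L →* Multiplicative (ZMod 2) where
  toFun x := Multiplicative.ofAdd x.b0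
  map_one' := rfl
  map_mul' _ _ := rfl

theorem ψ_eq (x : L) : ψ x = Multiplicative.ofAdd x.b0 := rfl

/-- four coordinates and the remaining data -/
def Q (c d : ZMod 2) : Type :=
  {v : (ZMod 2 × ZMod 2 × ZMod 2 × ZMod 2 × ZMod 2) × (ZMod 2 × ZMod 2 × ZMod 2 × ZMod 2 × ZMod 2) //
    v.1.1 * d + v.1.2.1 * v.2.2.2.2.1 + v.1.2.2.1 * v.2.2.2.2.2 =
    v.2.1 * c + v.2.2.1 * v.1.2.2.2.1 + v.2.2.2.1 * v.1.2.2.2.2}

instance (c d : ZMod 2) : Fintype (Q c d) := by unfold Q; infer_instance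

/-- the number of commuting pairs of given parities -/
def bL (x y : ℕ) : ℕ := if x = 0 ∧ y = 0 then 2176 else 2048

theorem card_T (c d : ZMod 2) :
    Nat.card (T (fun x : L => ψ x = Multiplicative.ofAdd c) (fun x : L => ψ x = Multiplicative.ofAdd d)) =
      bL c.val d.val := by
  have h1 : Nat.card (T (fun x : L => ψ x = Multiplicative.ofAdd c) (fun x : L => ψ x = Multiplicative.ofAdd d)) =
      Nat.card (Q c d × ZMod 2 × ZMod 2) := by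
    refine Nat.card_congr ⟨fun p => (⟨((p.1.1.a0, p.1.1.a1, p.1.1.a2, p.1.1.b1, p.1.1.b2),
        (p.1.2.a0, p.1.2.a1, p.1.2.a2, p.1.2.b1, p.1.2.b2)), ?_⟩, p.1.1.z, p.1.2.z),
      fun v => ⟨(⟨v.1.1.1.1, v.1.1.1.2.1, v.1.1.1.2.2.1, c, v.1.1.1.2.2.2.1, v.1.1.1.2.2.2.2, v.2.1⟩,
        ⟨v.1.1.2.1, v.1.1.2.2.1, v.1.1.2.2.2.1, d, v.1.1.2.2.2.2.1, v.1.1.2.2.2.2.2, v.2.2⟩), rfl, rfl, ?_⟩, ?_, ?_⟩
    · have h2 : p.1.1.b0 = c := Multiplicative.ofAdd.injective p.2.1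
      have h3 : p.1.2.b0 = d := Multiplicative.ofAdd.injective p.2.2.1
      have h4 := (commute_iff _ _).mp p.2.2.2
      rw [h2, h3] at h4
      exact h4
    · rw [commute_iff]
      exact v.1.2
    · rintro ⟨⟨x, y⟩, h2, h3, h4⟩
      have h2' : x.b0 = c := Multiplicative.ofAdd.injective h2
      have h3' : y.b0 = d := Multiplicative.ofAdd.injective h3
      subst h2' h3'
      rfl
    · rintro ⟨⟨v, hv⟩, z, z'⟩
      rfl
  rw [h1, Nat.card_prod, Nat.card_prod, Nat.card_zmod, Nat.card_eq_fintype_card]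
  have h5 : ∀ c d : ZMod 2, Fintype.card (Q c d) * (2 * 2) = bL c.val d.val := by decide +kernel
  exact h5 c d

theorem card_ker : Nat.card ψ.ker = 64 := by
  have h := ψ.ker.card_mul_index
  have h1 : ψ.ker.index = 2 := by
    rw [Subgroup.index_ker]
    have h2 : ψ.range = ⊤ := by
      rw [MonoidHom.range_eq_top]
      intro c
      exact ⟨⟨0, 0, 0, Multiplicative.toAdd c, 0, 0, 0⟩, rfl⟩
    rw [h2, Subgroup.card_top, Nat.card_congr Multiplicative.toAdd, Nat.card_zmod]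
  rw [h1, card_L] at h
  omega

theorem conj_ker : Nat.card (ConjClasses ψ.ker) = 34 := by
  have h := card_T_mem ψ.ker
  have h1 := card_T 0 0
  have h2 : Nat.card (T (fun x => x ∈ ψ.ker) (fun x => x ∈ ψ.ker)) = 2176 := h1
  rw [h2, card_ker] at h
  omega

/-- invariants of the classes of `ker ψ` -/
def κ (a0 a1 a2 b0 b1 b2 z : ZMod 2) : ℕ :=
  a0.val + 2 * a1.val + 4 * a2.val + 8 * b0.val + 16 * b1.val + 32 * b2.val +
    (if a1 = 0 ∧ a2 = 0 ∧ b0 = 0 ∧ b1 = 0 ∧ b2 = 0 then 64 * z.val else 0)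

def κ0 (x : L) : ℕ := κ x.a0 x.a1 x.a2 x.b0 x.b1 x.b2 x.z

theorem κ_swk : ∀ a0 a1 a2 b0 b1 b2 z : ZMod 2, κ a0 a1 a2 b0 b1 b2 (z + a0) = swk (κ a0 a1 a2 b0 b1 b2 z) ∧
    κ a0 a1 a2 b0 b1 b2 z < 128 := by
  decide +kernel

theorem κ_indep (a0 a1 a2 b0 b1 b2 z z' : ZMod 2) (h : ¬ (a1 = 0 ∧ a2 = 0 ∧ b0 = 0 ∧ b1 = 0 ∧ b2 = 0)) :
    κ a0 a1 a2 b0 b1 b2 z = κ a0 a1 a2 b0 b1 b2 z' := by
  unfold κ
  rw [if_neg h, if_neg h]

theorem κ0_conj (m x : L) : κ0 (m * x * m⁻¹) = if ψ m = 1 then κ0 x else swk (κ0 x) := by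
  have h1 : m * x * m⁻¹ = ⟨x.a0, x.a1, x.a2, x.b0, x.b1, x.b2,
      x.z + (m.a0 * x.b0 - x.a0 * m.b0) + (m.a1 * x.b1 - x.a1 * m.b1) + (m.a2 * x.b2 - x.a2 * m.b2)⟩ := by
    ext
    · show m.a0 + x.a0 + -m.a0 = x.a0; ring
    · show m.a1 + x.a1 + -m.a1 = x.a1; ring
    · show m.a2 + x.a2 + -m.a2 = x.a2; ring
    · show m.b0 + x.b0 + -m.b0 = x.b0; ring
    · show m.b1 + x.b1 + -m.b1 = x.b1; ring
    · show m.b2 + x.b2 + -m.b2 = x.b2; ring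
    · simp only [mul_z, mul_a0, mul_a1, mul_a2, inv_z, inv_b0, inv_b1, inv_b2]
      ring
  rw [h1]
  by_cases h2 : x.a1 = 0 ∧ x.a2 = 0 ∧ x.b0 = 0 ∧ x.b1 = 0 ∧ x.b2 = 0
  · obtain ⟨e1, e2, e3, e4, e5⟩ := h2
    have h3 : x.z + (m.a0 * x.b0 - x.a0 * m.b0) + (m.a1 * x.b1 - x.a1 * m.b1) + (m.a2 * x.b2 - x.a2 * m.b2) =
        x.z - x.a0 * m.b0 := by
      rw [e1, e2, e3, e4, e5]; ring
    have h4 : m.b0 = 0 ∨ m.b0 = 1 := by
      generalize m.b0 = c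
      revert c; decide
    show κ x.a0 x.a1 x.a2 x.b0 x.b1 x.b2 _ = _
    rw [h3]
    rcases h4 with h4 | h4
    · have h5 : ψ m = 1 := by rw [ψ_eq, h4]; rfl
      rw [if_pos h5, h4, mul_zero, sub_zero]
      rfl
    · have h5 : ψ m ≠ 1 := by rw [ψ_eq, h4]; decide
      rw [if_neg h5, h4, mul_one]
      have h6 : x.z - x.a0 = x.z + x.a0 := by
        generalize x.z = c; generalize x.a0 = d
        revert c d; decide
      rw [h6]
      exact (κ_swk _ _ _ _ _ _ _).1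
  · have h3 : κ0 (⟨x.a0, x.a1, x.a2, x.b0, x.b1, x.b2,
      x.z + (m.a0 * x.b0 - x.a0 * m.b0) + (m.a1 * x.b1 - x.a1 * m.b1) + (m.a2 * x.b2 - x.a2 * m.b2)⟩ : L) = κ0 x :=
      κ_indep _ _ _ _ _ _ _ _ h2
    have h4 : swk (κ0 x) = κ0 x := by
      have h5 := (κ_swk x.a0 x.a1 x.a2 x.b0 x.b1 x.b2 x.z).1
      have h6 : κ x.a0 x.a1 x.a2 x.b0 x.b1 x.b2 (x.z + x.a0) = κ0 x := κ_indep _ _ _ _ _ _ _ _ h2
      show swk (κ _ _ _ _ _ _ _) = _
      rw [← h5, h6]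
    rw [h3, h4, ite_self]

theorem pow_four (x : L) : x ^ 4 = 1 := by
  have h : ∀ y : L, y * y = ⟨0, 0, 0, 0, 0, 0, y.a0 * y.b0 + y.a1 * y.b1 + y.a2 * y.b2⟩ := by
    intro y
    have h2 : ∀ c : ZMod 2, c + c = 0 := by decide
    ext
    · exact h2 _
    · exact h2 _
    · exact h2 _
    · exact h2 _
    · exact h2 _
    · exact h2 _
    · rw [mul_z, h2, zero_add]
  have h1 : x ^ 4 = (x * x) * (x * x) := by
    rw [← pow_two, ← pow_two, ← pow_mul]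
  rw [h1, h, h]
  ext <;> simp

/-- the element with given invariant -/
def dec (k : ℕ) : L := ⟨(k : ℕ), (k / 2 : ℕ), (k / 4 : ℕ), (k / 8 : ℕ), (k / 16 : ℕ), (k / 32 : ℕ), (k / 64 : ℕ)⟩

theorem κ0_dec : ∀ k : ℕ, k < 128 → (k < 64 ∨ Nat.land k 62 = 0) →
    κ0 (dec k) = k ∧ (dec k).b0.val = Nat.land (Nat.shiftRight k 3) 1 := by
  decide +kernel

end L

end Pool.Agent.Q21.PR
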