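import Pool.Agent.Q21.PR.G

/-!
# Direct products
-/

set_option autoImplicit false

namespace Pool.Agent.Q21.PR

/-- bounds for the two numbers -/
def Bd (X : Type) [Group X] (a b : ℕ) : Prop :=
  a ≤ Nat.card {c : ConjClasses X // ∀ g ∈ c.carrier, ¬ 3 ∣ orderOf g} ∧
    ∀ H : Subgroup X, ¬ 3 ∣ Nat.card H → Nat.card (ConjClasses H) ≤ b

theorem conj_congr {X Y : Type} [Group X] [Group Y] [Finite X] [Finite Y] (e : X ≃* Y) :
    Nat.card (ConjClasses X) ≤ Nat.card (ConjClasses Y) :=
  Nat.card_le_card_of_surjective (ConjClasses.map (e.symm : Y →* X))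
    (ConjClasses.map_surjective e.symm.surjective)

theorem Bd_prod {X Y : Type} [Group X] [Group Y] [Finite X] [Finite Y] {a b a' b' : ℕ}
    (h : Bd X a b) (h' : Bd Y a' b') : Bd (X × Y) (a * a') (b * b') := by
  have hp : Nat.Prime 3 := Nat.prime_three
  constructor
  · refine (Nat.mul_le_mul h.1 h'.1).trans ?_
    rw [← Nat.card_prod]
    have hout : ∀ (Z : Type) [Group Z] (c : ConjClasses Z), ConjClasses.mk (Quotient.out c) = c :=
      fun Z _ c => Quotient.out_eq c
    refine Nat.card_le_card_of_injective (fun p => ⟨ConjClasses.mk (Quotient.out p.1.1, Quotient.out p.2.1), ?_⟩) ?_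
    · rintro ⟨x, y⟩ hg h3
      rw [ConjClasses.mem_carrier_iff_mk_eq, ConjClasses.mk_eq_mk_iff_isConj, isConj_iff] at hg
      obtain ⟨⟨c, d⟩, hc⟩ := hg
      obtain ⟨hc1, hc2⟩ := Prod.mk.inj hc
      rw [Prod.orderOf_mk, Nat.Prime.dvd_lcm hp] at h3
      rcases h3 with h3 | h3
      · refine p.1.2 x ?_ h3
        rw [ConjClasses.mem_carrier_iff_mk_eq]
        conv_rhs => rw [← hout X p.1.1]
        rw [ConjClasses.mk_eq_mk_iff_isConj, isConj_iff]
        exact ⟨c, hc1⟩
      · refine p.2.2 y ?_ h3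
        rw [ConjClasses.mem_carrier_iff_mk_eq]
        conv_rhs => rw [← hout Y p.2.1]
        rw [ConjClasses.mk_eq_mk_iff_isConj, isConj_iff]
        exact ⟨d, hc2⟩
    · rintro ⟨⟨c1, hc1⟩, ⟨c2, hc2⟩⟩ ⟨⟨d1, hd1⟩, ⟨d2, hd2⟩⟩ h
      have h1 : ConjClasses.mk (Quotient.out c1, Quotient.out c2) = ConjClasses.mk (Quotient.out d1, Quotient.out d2) :=
        congrArg Subtype.val h
      rw [ConjClasses.mk_eq_mk_iff_isConj, isConj_iff] at h1
      obtain ⟨⟨c, d⟩, hc⟩ := h1
      obtain ⟨he1, he2⟩ := Prod.mk.inj hc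
      have e1 : c1 = d1 := by
        rw [← hout X c1, ← hout X d1, ConjClasses.mk_eq_mk_iff_isConj, isConj_iff]
        exact ⟨c, he1⟩
      have e2 : c2 = d2 := by
        rw [← hout Y c2, ← hout Y d2, ConjClasses.mk_eq_mk_iff_isConj, isConj_iff]
        exact ⟨d, he2⟩
      subst e1 e2
      rfl
  · intro H h3
    let π : H →* X := (MonoidHom.fst X Y).comp H.subtype
    have hmain := card_conj_le π.rangeRestrict π.rangeRestrict_surjective
    have h4 : ¬ 3 ∣ Nat.card π.range := fun hd => h3 (hd.trans (Subgroup.card_range_dvd π))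
    have h5 := h.2 π.range h4
    let ρ : π.rangeRestrict.ker →* Y := ((MonoidHom.snd X Y).comp H.subtype).comp π.rangeRestrict.ker.subtype
    have hρ : Function.Injective ρ := by
      intro u v huv
      have hu : π (u : H) = 1 := congrArg Subtype.val (MonoidHom.mem_ker.mp u.2)
      have hv : π (v : H) = 1 := congrArg Subtype.val (MonoidHom.mem_ker.mp v.2)
      apply Subtype.ext
      apply Subtype.ext
      exact Prod.ext (hu.trans hv.symm) huv
    have h6 : ¬ 3 ∣ Nat.card ρ.range := by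
      intro hd
      exact h3 ((hd.trans (Subgroup.card_range_dvd ρ)).trans (Subgroup.card_subgroup_dvd_card _))
    have h7 := h'.2 ρ.range h6
    have h8 := conj_congr (MonoidHom.ofInjective hρ)
    exact hmain.trans (Nat.mul_le_mul h5 (h8.trans h7))

theorem Bd_G : Bd G 362 359 := ⟨le_regular, conj_le⟩

theorem exists_pow (m : ℕ) : ∃ (X : Type) (_ : Group X) (_ : Finite X), Nat.card X = 92160 ^ m ∧
    Bd X (362 ^ m) (359 ^ m) := by
  induction m with
  | zero =>
    have hc1 : Nat.card (Multiplicative (ZMod 1)) = 1 := by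
      rw [Nat.card_congr Multiplicative.toAdd, Nat.card_zmod]
    refine ⟨Multiplicative (ZMod 1), inferInstance, inferInstance, hc1, ?_, ?_⟩
    · rw [pow_zero, Nat.one_le_iff_ne_zero, ← Nat.pos_iff_ne_zero, Nat.card_pos_iff]
      refine ⟨⟨⟨ConjClasses.mk 1, ?_⟩⟩, inferInstance⟩
      intro g _ h3
      have : g = 1 := Subsingleton.elim _ _
      rw [this, orderOf_one] at h3
      omega
    · intro H _
      rw [pow_zero]
      have h1 : Nat.card (ConjClasses H) ≤ Nat.card H :=
        Nat.card_le_card_of_surjective ConjClasses.mk ConjClasses.mk_surjective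
      have h2 : Nat.card H ≤ Nat.card (Multiplicative (ZMod 1)) := Subgroup.card_le_card_group H
      have h3 : Nat.card (Multiplicative (ZMod 1)) = 1 := by
        rw [Nat.card_congr Multiplicative.toAdd, Nat.card_zmod]
      omega
  | succ m ih =>
    obtain ⟨X, iX, fX, hc, hX⟩ := ih
    refine ⟨X × G, inferInstance, inferInstance, ?_, ?_⟩
    · rw [Nat.card_prod, hc, card_G, pow_succ]
    · rw [pow_succ, pow_succ]
      exact Bd_prod hX Bd_G

end Pool.Agent.Q21.PR
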