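import Mathlib

/-!
# Class numbers of small groups of order prime to three
-/

set_option autoImplicit false

namespace Pool.Agent.Q21.PR

variable {G : Type} [Group G]

theorem sum_centralizer [Fintype G] :
    Nat.card (ConjClasses G) * Nat.card G = ∑ x : G, Nat.card (Subgroup.centralizer ({x} : Set G)) := by
  classical
  rw [← card_comm_eq_card_conjClasses_mul_card, ← Nat.card_sigma]
  refine Nat.card_congr ⟨fun p => ⟨p.1.1, ⟨p.1.2, ?_⟩⟩, fun p => ⟨(p.1, p.2.1), ?_⟩,
    fun p => rfl, fun p => rfl⟩
  · rw [Subgroup.mem_centralizer_singleton_iff]; exact p.2.symm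
  · have := p.2.2
    rw [Subgroup.mem_centralizer_singleton_iff] at this
    exact this.symm

/-- nonabelian groups of order 16 have at most ten classes -/
theorem conj_le_of_card_sixteen [Finite G] (h16 : Nat.card G = 16)
    (hna : ∃ x y : G, x * y ≠ y * x) : Nat.card (ConjClasses G) ≤ 10 := by
  classical
  have := Fintype.ofFinite G
  have hZ : Nat.card (Subgroup.center G) ≤ 4 := by
    have hdvd : Nat.card (Subgroup.center G) ∣ 16 := h16 ▸ Subgroup.card_subgroup_dvd_card _
    have hind := (Subgroup.center G).card_mul_index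
    rw [h16] at hind
    have hnc : ¬ IsCyclic (G ⧸ Subgroup.center G) := by
      intro hc
      obtain ⟨x, y, hxy⟩ := hna
      exact hxy (commutative_of_cyclic_center_quotient (QuotientGroup.mk' (Subgroup.center G))
        (by rw [QuotientGroup.ker_mk']) x y)
    have hi1 : (Subgroup.center G).index ≠ 1 := by
      intro h
      apply hnc
      have : Subsingleton (G ⧸ Subgroup.center G) := by
        rw [Subgroup.index_eq_card] at h
        exact (Nat.card_eq_one_iff_unique.mp h).1
      infer_instance
    have hi2 : (Subgroup.center G).index ≠ 2 := by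
      intro h
      apply hnc
      rw [Subgroup.index_eq_card] at h
      have : Fact (Nat.Prime 2) := ⟨Nat.prime_two⟩
      exact isCyclic_of_prime_card h
    have h1 : Nat.card (Subgroup.center G) ∈ Nat.divisors 16 := Nat.mem_divisors.mpr ⟨hdvd, by norm_num⟩
    have h2 : Nat.divisors 16 = {1, 2, 4, 8, 16} := by decide
    rw [h2] at h1
    simp only [Finset.mem_insert, Finset.mem_singleton] at h1
    rcases h1 with h | h | h | h | h <;> rw [h] at hind ⊢ <;> omega
  have hcent : ∀ x : G, x ∉ Subgroup.center G → Nat.card (Subgroup.centralizer ({x} : Set G)) ≤ 8 := by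
    intro x hx
    have hind := (Subgroup.centralizer ({x} : Set G)).card_mul_index
    rw [h16] at hind
    have hne : (Subgroup.centralizer ({x} : Set G)).index ≠ 1 := by
      intro h
      rw [Subgroup.index_eq_one] at h
      apply hx
      rw [Subgroup.mem_center_iff]
      intro g
      have : g ∈ Subgroup.centralizer ({x} : Set G) := h ▸ Subgroup.mem_top g
      rw [Subgroup.mem_centralizer_singleton_iff] at this
      exact this
    have hpos : (Subgroup.centralizer ({x} : Set G)).index ≠ 0 := by
      intro h; rw [h] at hind; omega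
    have h2 : 2 ≤ (Subgroup.centralizer ({x} : Set G)).index := by omega
    nlinarith
  have hsum := sum_centralizer (G := G)
  have hle : ∑ x : G, Nat.card (Subgroup.centralizer ({x} : Set G)) ≤
      ∑ x : G, (8 + if x ∈ Subgroup.center G then 8 else 0) := by
    refine Finset.sum_le_sum fun x _ => ?_
    split_ifs with h
    · calc _ ≤ Nat.card G := Subgroup.card_le_card_group _
        _ = 16 := h16
    · have := hcent x h
      omega
  rw [Finset.sum_add_distrib, Finset.sum_const, Finset.card_univ, ← Nat.card_eq_fintype_card, h16,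
    ← Finset.sum_filter, Finset.sum_const] at hle
  have hc : (Finset.univ.filter fun x : G => x ∈ Subgroup.center G).card = Nat.card (Subgroup.center G) := by
    rw [Nat.card_eq_fintype_card, Fintype.card_subtype]
  rw [hc, ← hsum, h16] at hle
  simp only [smul_eq_mul] at hle
  omega

section five

variable [Finite G] (x : G) (hx : orderOf x = 5)

include hx

theorem card_zp : Nat.card (Subgroup.zpowers x) = 5 := by rw [Nat.card_zpowers, hx]

/-- nontrivial elements of `⟨x⟩` have the same centralizer as `x` -/
theorem comm_of_comm {y : G} (hy : y ∈ Subgroup.zpowers x) (hy1 : y ≠ 1) {g : G}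
    (hg : Commute g y) : Commute g x := by
  have hp5 : Nat.Prime 5 := by norm_num
  have hyF : Subgroup.zpowers y = Subgroup.zpowers x := by
    have h1 : Subgroup.zpowers y ≤ Subgroup.zpowers x := by rwa [Subgroup.zpowers_le]
    have h2 : Nat.card (Subgroup.zpowers y) ∣ 5 := card_zp x hx ▸ Subgroup.card_dvd_of_le h1
    rcases (Nat.dvd_prime hp5).mp h2 with h3 | h3
    · exfalso; apply hy1
      rw [Nat.card_zpowers, orderOf_eq_one_iff] at h3
      exact h3
    · exact Subgroup.eq_of_le_of_card_ge h1 (by rw [card_zp x hx, h3])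
  have hxy : x ∈ Subgroup.zpowers y := by rw [hyF]; exact Subgroup.mem_zpowers x
  obtain ⟨k, hk⟩ := Subgroup.mem_zpowers_iff.mp hxy
  rw [← hk]
  exact hg.zpow_right k

theorem card_le_four (hn : (Subgroup.zpowers x).Normal) :
    Nat.card G ≤ 4 * Nat.card (Subgroup.centralizer ({x} : Set G)) := by
  classical
  have := Fintype.ofFinite G
  have hx1 : x ≠ 1 := by
    rintro rfl; simp at hx
  have h := Finset.card_le_mul_card_image (f := fun g : G => g * x * g⁻¹) (Finset.univ : Finset G)
    (Nat.card (Subgroup.centralizer ({x} : Set G))) ?_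
  · have h2 : (Finset.image (fun g : G => g * x * g⁻¹) Finset.univ).card ≤ 4 := by
      have h3 : Finset.image (fun g : G => g * x * g⁻¹) Finset.univ ⊆
          (Finset.univ.filter fun y : G => y ∈ Subgroup.zpowers x).erase 1 := by
        intro y hy
        obtain ⟨g, -, rfl⟩ := Finset.mem_image.mp hy
        rw [Finset.mem_erase, Finset.mem_filter]
        refine ⟨?_, Finset.mem_univ _, hn.conj_mem x (Subgroup.mem_zpowers x) g⟩
        intro h
        apply hx1
        have : x = g⁻¹ * (g * x * g⁻¹) * g := by group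
        rw [this, h]; group
      refine (Finset.card_le_card h3).trans ?_
      rw [Finset.card_erase_of_mem (by
        rw [Finset.mem_filter]; exact ⟨Finset.mem_univ _, one_mem _⟩)]
      have h4 : (Finset.univ.filter fun y : G => y ∈ Subgroup.zpowers x).card = 5 := by
        rw [← card_zp x hx, Nat.card_eq_fintype_card, Fintype.card_subtype]
      rw [h4]
    rw [Finset.card_univ, ← Nat.card_eq_fintype_card] at h
    calc Nat.card G ≤ _ := h
      _ ≤ Nat.card (Subgroup.centralizer ({x} : Set G)) * 4 := Nat.mul_le_mul_left _ h2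
      _ = _ := mul_comm _ _
  · intro a ha
    obtain ⟨g0, -, rfl⟩ := Finset.mem_image.mp ha
    rw [Nat.card_eq_fintype_card, Fintype.card_subtype]
    refine Finset.card_le_card_of_injOn (fun g => g0⁻¹ * g) ?_ ?_
    · intro g hg
      have hg' : g * x * g⁻¹ = g0 * x * g0⁻¹ := by simpa using hg
      simp only [Finset.coe_filter, Finset.mem_univ, true_and, Set.mem_setOf_eq]
      rw [Subgroup.mem_centralizer_singleton_iff]
      have h1 : g * x = g0 * x * g0⁻¹ * g := by rw [← hg']; group
      calc g0⁻¹ * g * x = g0⁻¹ * (g * x) := by group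
        _ = x * (g0⁻¹ * g) := by rw [h1]; group
    · intro g _ g' _ h
      exact mul_left_cancel h

theorem conj_bound (hn : (Subgroup.zpowers x).Normal) (m : ℕ) (hm : Nat.card G = 5 * m)
    (hc : Nat.card (Subgroup.centralizer ({x} : Set G)) ∣ 10) :
    ∃ a ≤ Nat.card (Subgroup.centralizer ({x} : Set G)) / 5,
    Nat.card (ConjClasses G) * Nat.card G ≤
      a * Nat.card G +
      (Nat.card (Subgroup.centralizer ({x} : Set G)) - a) *
        Nat.card (Subgroup.centralizer ({x} : Set G)) +
      (Nat.card G - Nat.card (Subgroup.centralizer ({x} : Set G))) * m := by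
  classical
  have := Fintype.ofFinite G
  have hx1 : x ≠ 1 := by
    rintro rfl; simp at hx
  have hp5 : Nat.Prime 5 := by norm_num
  have hFcard := card_zp x hx
  have hFC : Subgroup.zpowers x ≤ Subgroup.centralizer ({x} : Set G) := by
    rw [Subgroup.zpowers_le, Subgroup.mem_centralizer_singleton_iff]
  have h5c : 5 ∣ Nat.card (Subgroup.centralizer ({x} : Set G)) := hFcard ▸ Subgroup.card_dvd_of_le hFC
  have hmemC : ∀ g : G, g ∈ Subgroup.centralizer ({x} : Set G) ↔ Commute g x := fun g => by
    rw [Subgroup.mem_centralizer_singleton_iff]; rfl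
  have hc0 : 0 < Nat.card (Subgroup.centralizer ({x} : Set G)) := Nat.card_pos
  have hcv : Nat.card (Subgroup.centralizer ({x} : Set G)) = 5 ∨
      Nat.card (Subgroup.centralizer ({x} : Set G)) = 10 := by
    have := Nat.le_of_dvd (by norm_num) hc
    generalize Nat.card (Subgroup.centralizer ({x} : Set G)) = c at *
    interval_cases c <;> omega
  -- squares of elements of `C`
  have hsq : ∀ g : G, Commute g x → g ^ 2 ∈ Subgroup.zpowers x := by
    intro g hg
    let N : Subgroup (Subgroup.centralizer ({x} : Set G)) :=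
      (Subgroup.zpowers x).subgroupOf (Subgroup.centralizer ({x} : Set G))
    have hNn : N.Normal := by
      have := hn
      infer_instance
    have hidx : Nat.card ((Subgroup.centralizer ({x} : Set G)) ⧸ N) ∣ 2 := by
      have h1 : Nat.card N = 5 := by
        rw [← hFcard]
        exact Nat.card_congr (Subgroup.subgroupOfEquivOfLe hFC).toEquiv
      have h2 := N.card_mul_index
      rw [h1, Subgroup.index_eq_card] at h2
      rcases hcv with h | h <;> rw [h] at h2
      · exact ⟨2, by omega⟩
      · exact ⟨1, by omega⟩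
    have h3 : ((QuotientGroup.mk (s := N) ⟨g, (hmemC g).mpr hg⟩ :
        (Subgroup.centralizer ({x} : Set G)) ⧸ N)) ^ 2 = 1 := by
      obtain ⟨k, hk⟩ := hidx
      rw [hk, pow_mul, pow_card_eq_one', one_pow]
    rw [← QuotientGroup.mk_pow, QuotientGroup.eq_one_iff, Subgroup.mem_subgroupOf] at h3
    exact h3
  have hbig : ∀ g : G, Commute g x → g ^ 2 ≠ 1 →
      Nat.card (Subgroup.centralizer ({g} : Set G)) ≤ Nat.card (Subgroup.centralizer ({x} : Set G)) := by
    intro g hg hg2
    refine Subgroup.card_le_of_le ?_
    intro h hh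
    rw [hmemC]
    rw [Subgroup.mem_centralizer_singleton_iff] at hh
    exact comm_of_comm x hx (hsq g hg) hg2 (Commute.pow_right hh 2)
  have hout : ∀ g : G, ¬ Commute g x → Nat.card (Subgroup.centralizer ({g} : Set G)) ≤ m := by
    intro g hg
    have := hn
    have h1 : Nat.card (G ⧸ Subgroup.zpowers x) = m := by
      have := (Subgroup.zpowers x).card_mul_index
      rw [hFcard, Subgroup.index_eq_card, hm] at this
      omega
    rw [← h1]
    refine Nat.card_le_card_of_injective
      (fun h : Subgroup.centralizer ({g} : Set G) => (QuotientGroup.mk (h : G) : G ⧸ Subgroup.zpowers x)) ?_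
    intro h h' he
    rw [QuotientGroup.eq] at he
    have hcm : Commute g ((h : G)⁻¹ * h') := by
      have h2 := Subgroup.mem_centralizer_singleton_iff.mp h.2
      have h3 := Subgroup.mem_centralizer_singleton_iff.mp h'.2
      exact (Commute.inv_right (show Commute g (h : G) from h2.symm)).mul_right
        (show Commute g (h' : G) from h3.symm)
    by_cases h1 : (h : G)⁻¹ * h' = 1
    · exact Subtype.ext (inv_mul_eq_one.mp h1)
    · exact absurd (comm_of_comm x hx he h1 hcm) hg
  let A := Finset.univ.filter fun g : G => Commute g x ∧ g ^ 2 = 1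
  have hA : A.card ≤ Nat.card (Subgroup.centralizer ({x} : Set G)) / 5 := by
    let N : Subgroup (Subgroup.centralizer ({x} : Set G)) :=
      (Subgroup.zpowers x).subgroupOf (Subgroup.centralizer ({x} : Set G))
    have hq : Nat.card ((Subgroup.centralizer ({x} : Set G)) ⧸ N) =
        Nat.card (Subgroup.centralizer ({x} : Set G)) / 5 := by
      have h1 : Nat.card N = 5 := by
        rw [← hFcard]
        exact Nat.card_congr (Subgroup.subgroupOfEquivOfLe hFC).toEquiv
      have h2 := N.card_mul_index
      rw [h1, Subgroup.index_eq_card] at h2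
      omega
    rw [← hq]
    have h0 : A.card = Nat.card {g : G // Commute g x ∧ g ^ 2 = 1} := by
      rw [Nat.card_eq_fintype_card, Fintype.card_subtype]
    rw [h0]
    refine Nat.card_le_card_of_injective
      (fun g : {g : G // Commute g x ∧ g ^ 2 = 1} =>
        (QuotientGroup.mk (s := N) ⟨g.1, (hmemC g.1).mpr g.2.1⟩ :
          (Subgroup.centralizer ({x} : Set G)) ⧸ N)) ?_
    rintro ⟨g, hg, hg2⟩ ⟨g', hg', hg2'⟩ he
    rw [QuotientGroup.eq, Subgroup.mem_subgroupOf] at he
    have he' : g⁻¹ * g' ∈ Subgroup.zpowers x := he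
    obtain ⟨k, hk⟩ := Subgroup.mem_zpowers_iff.mp he'
    have hcomm : Commute g (g⁻¹ * g') := by
      rw [← hk]; exact hg.zpow_right k
    have h1 : (g⁻¹ * g') ^ 2 = 1 := by
      have h2 : (g * (g⁻¹ * g')) ^ 2 = g ^ 2 * (g⁻¹ * g') ^ 2 := hcomm.mul_pow 2
      rw [mul_inv_cancel_left, hg2, hg2', one_mul] at h2
      exact h2.symm
    have h2 : orderOf (g⁻¹ * g') ∣ 2 := orderOf_dvd_of_pow_eq_one h1
    have h3 : orderOf (g⁻¹ * g') ∣ 5 := by
      rw [← hFcard, ← Subgroup.orderOf_mk (g⁻¹ * g') he']
      exact orderOf_dvd_natCard _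
    have h4 : orderOf (g⁻¹ * g') ∣ 1 := by
      have := Nat.dvd_gcd h2 h3
      simpa using this
    have h5 : g⁻¹ * g' = 1 := by
      rw [← orderOf_eq_one_iff]; exact Nat.dvd_one.mp h4
    exact Subtype.ext (inv_mul_eq_one.mp h5)
  let C := Finset.univ.filter fun g : G => Commute g x
  have hCc : C.card = Nat.card (Subgroup.centralizer ({x} : Set G)) := by
    rw [Nat.card_eq_fintype_card, Fintype.card_subtype]
    congr 1
    ext g
    simp only [C, Finset.mem_filter, Finset.mem_univ, true_and, hmemC]
  refine ⟨A.card, hA, ?_⟩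
  rw [sum_centralizer]
  have hAC : A ⊆ C := by
    intro g hg
    simp only [A, C, Finset.mem_filter, Finset.mem_univ, true_and] at hg ⊢
    exact hg.1
  have hsplit : ∑ g : G, Nat.card (Subgroup.centralizer ({g} : Set G)) =
      ∑ g ∈ A, Nat.card (Subgroup.centralizer ({g} : Set G)) +
      ∑ g ∈ C \ A, Nat.card (Subgroup.centralizer ({g} : Set G)) +
      ∑ g ∈ Cᶜ, Nat.card (Subgroup.centralizer ({g} : Set G)) := by
    rw [← Finset.sum_sdiff (Finset.subset_univ C), ← Finset.sum_sdiff hAC, ← Finset.compl_eq_univ_sdiff]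
    ring
  rw [hsplit]
  have e1 : ∑ g ∈ A, Nat.card (Subgroup.centralizer ({g} : Set G)) ≤ A.card * Nat.card G := by
    rw [← smul_eq_mul, ← Finset.sum_const]
    exact Finset.sum_le_sum fun g _ => Subgroup.card_le_card_group _
  have e2 : ∑ g ∈ C \ A, Nat.card (Subgroup.centralizer ({g} : Set G)) ≤
      (Nat.card (Subgroup.centralizer ({x} : Set G)) - A.card) *
        Nat.card (Subgroup.centralizer ({x} : Set G)) := by
    rw [← hCc, ← Finset.card_sdiff_of_subset hAC, hCc, ← smul_eq_mul, ← Finset.sum_const]
    refine Finset.sum_le_sum fun g hg => ?_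
    simp only [A, C, Finset.mem_sdiff, Finset.mem_filter, Finset.mem_univ, true_and, not_and] at hg
    exact hbig g hg.1 (hg.2 hg.1)
  have e3 : ∑ g ∈ Cᶜ, Nat.card (Subgroup.centralizer ({g} : Set G)) ≤
      (Nat.card G - Nat.card (Subgroup.centralizer ({x} : Set G))) * m := by
    rw [← hCc, Nat.card_eq_fintype_card, ← Finset.card_compl, ← smul_eq_mul, ← Finset.sum_const]
    refine Finset.sum_le_sum fun g hg => ?_
    simp only [C, Finset.mem_compl, Finset.mem_filter, Finset.mem_univ, true_and] at hg
    exact hout g hg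
  exact Nat.add_le_add (Nat.add_le_add e1 e2) e3

theorem conj_le_of_normal_five (hn : (Subgroup.zpowers x).Normal)
    (hG : Nat.card G = 20 ∨ Nat.card G = 40)
    (hc : Nat.card (Subgroup.centralizer ({x} : Set G)) ∣ 10) : Nat.card (ConjClasses G) ≤ 10 := by
  have h4 := card_le_four x hx hn
  have hcv : Nat.card (Subgroup.centralizer ({x} : Set G)) = 5 ∨
      Nat.card (Subgroup.centralizer ({x} : Set G)) = 10 := by
    have h1 := Nat.le_of_dvd (by norm_num) hc
    generalize Nat.card (Subgroup.centralizer ({x} : Set G)) = c at *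
    interval_cases c <;> omega
  have hm : ∃ m, Nat.card G = 5 * m := by
    rcases hG with h | h
    · exact ⟨4, h⟩
    · exact ⟨8, h⟩
  obtain ⟨m, hm⟩ := hm
  obtain ⟨a, ha, hb⟩ := conj_bound x hx hn m hm hc
  rcases hG with h | h <;> rcases hcv with h' | h' <;> rw [h, h'] at hb <;> rw [h'] at ha h4 <;>
    rw [h] at h4 hm <;> norm_num at ha <;> interval_cases a <;> omega

end five

end Pool.Agent.Q21.PR
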