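import Pool.Agent.Q21.PR.Dat

/-!
# Arithmetic of the tables
-/

set_option autoImplicit false

namespace Pool.Agent.Q21.PR

/-- the code of the permutation with index `k` -/
def cd (k : Nat) : Nat := Nat.land (Nat.shiftRight TC (Nat.mul (nat_lit 40) k)) (nat_lit 1099511627775)

/-- hexadecimal digits -/
def dg (c j : Nat) : Nat := Nat.land (Nat.shiftRight c (Nat.mul (nat_lit 4) j)) (nat_lit 15)

/-- code of a composition -/
def cmp (c d : Nat) : Nat :=
  Nat.add (dg c (dg d (nat_lit 0))) (Nat.mul (nat_lit 16)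
  (Nat.add (dg c (dg d (nat_lit 1))) (Nat.mul (nat_lit 16)
  (Nat.add (dg c (dg d (nat_lit 2))) (Nat.mul (nat_lit 16)
  (Nat.add (dg c (dg d (nat_lit 3))) (Nat.mul (nat_lit 16)
  (Nat.add (dg c (dg d (nat_lit 4))) (Nat.mul (nat_lit 16)
  (Nat.add (dg c (dg d (nat_lit 5))) (Nat.mul (nat_lit 16)
  (Nat.add (dg c (dg d (nat_lit 6))) (Nat.mul (nat_lit 16)
  (Nat.add (dg c (dg d (nat_lit 7))) (Nat.mul (nat_lit 16)
  (Nat.add (dg c (dg d (nat_lit 8))) (Nat.mul (nat_lit 16)
  (dg c (dg d (nat_lit 9))))))))))))))))))))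

/-- index of the element with code `c` and parity `x` -/
def ky (c x : Nat) : Nat :=
  Nat.add (dg c (nat_lit 9)) (Nat.add (Nat.mul (nat_lit 10) (dg c (nat_lit 0)))
    (Nat.add (Nat.mul (nat_lit 100) (dg c (nat_lit 1))) (Nat.mul (nat_lit 1000) x)))

/-- parity of an index -/
def px (k : Nat) : Nat := Nat.div k (nat_lit 1000)

def tg (k : Nat) : Nat := Nat.land (Nat.shiftRight TG (Nat.mul (nat_lit 8) k)) (nat_lit 3)
def td (k : Nat) : Nat := Nat.land (Nat.shiftRight TG (Nat.add (nat_lit 2) (Nat.mul (nat_lit 8) k))) (nat_lit 63)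
def ti (k : Nat) : Nat := Nat.land (Nat.shiftRight TI (Nat.mul (nat_lit 4) k)) (nat_lit 15)

/-- bounded conjunction -/
def allB (n : Nat) (f : Nat → Bool) : Bool :=
  Nat.rec (motive := fun _ => Bool) true (fun k ih => and (f k) ih) n

/-- bounded counting -/
def cntB (n : Nat) (f : Nat → Bool) : Nat :=
  Nat.rec (motive := fun _ => Nat) (nat_lit 0) (fun k ih => cond (f k) (Nat.succ ih) ih) n

theorem allB_spec {n : Nat} {f : Nat → Bool} (h : allB n f = true) : ∀ k, k < n → f k = true := by
  induction n with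
  | zero => intro k hk; omega
  | succ n ih =>
    intro k hk
    have h' : (f n && allB n f) = true := h
    rw [Bool.and_eq_true] at h'
    rcases Nat.lt_succ_iff_lt_or_eq.mp hk with h1 | h1
    · exact ih h'.2 k h1
    · rw [h1]; exact h'.1

theorem cntB_spec (n : Nat) (f : Nat → Bool) :
    cntB n f = ((Finset.range n).filter fun k => f k = true).card := by
  induction n with
  | zero => rfl
  | succ n ih =>
    have h : cntB (n + 1) f = cond (f n) (Nat.succ (cntB n f)) (cntB n f) := rfl
    rw [h, Finset.range_add_one, Finset.filter_insert]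
    cases hf : f n with
    | true =>
      rw [if_pos rfl, Finset.card_insert_of_notMem (by simp), ← ih]
      rfl
    | false =>
      rw [if_neg (by simp), ← ih]
      rfl

/-- the codes of the three generators and of their inverses -/
def cg (g : Nat) : Nat := cond (Nat.beq g (nat_lit 1)) (nat_lit 632015968320)
  (cond (Nat.beq g (nat_lit 2)) (nat_lit 413736076065) (nat_lit 641083073040))
def ci (g : Nat) : Nat := cond (Nat.beq g (nat_lit 1)) (nat_lit 628746192720)
  (cond (Nat.beq g (nat_lit 2)) (nat_lit 357714764040) (nat_lit 641083073040))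
def xg (g : Nat) : Nat := cond (Nat.beq g (nat_lit 3)) (nat_lit 1) (nat_lit 0)

/-- an index which is in use -/
def vd (k : Nat) : Bool := not (Nat.beq (cd k) (nat_lit 0))

/-- closure under left multiplication by the generator `g` -/
def chk1 (g k : Nat) : Bool :=
  or (not (vd k))
    ((fun c => Nat.beq (cd (ky c (Nat.mod (Nat.add (px k) (xg g)) (nat_lit 2)))) c) (cmp (cg g) (cd k)))

/-- the index of the identity -/
def k1 : Nat := nat_lit 109

/-- consistency of the indices -/
def chk2 (k : Nat) : Bool := or (not (vd k)) (Nat.beq (ky (cd k) (px k)) k)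

/-- the first generator of a word can be removed -/
def chk3 (k : Nat) : Bool :=
  or (or (not (vd k)) (Nat.beq k k1))
    ((fun c => (fun k' => and (and (Nat.blt k' (nat_lit 2000)) (not (Nat.beq c (nat_lit 0)))) (and (Nat.beq (cd k') c) (and (Nat.blt (td k') (td k))
      (and (Nat.beq (cmp (cg (tg k)) c) (cd k)) (and (Nat.blt (nat_lit 0) (tg k)) (Nat.blt (tg k) (nat_lit 4)))))))
      (ky c (Nat.mod (Nat.add (px k) (xg (tg k))) (nat_lit 2)))) (cmp (ci (tg k)) (cd k)))

/-- the effect of an element outside `PGL₂(9)` on the class numbers -/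
def sw (i : Nat) : Nat :=
  cond (and (Nat.ble (nat_lit 4) i) (Nat.ble i (nat_lit 9))) (Nat.xor i (nat_lit 1)) i

/-- behaviour of the class numbers under conjugation -/
def chk4 (g k : Nat) : Bool :=
  or (not (vd k)) (Nat.beq (ti (ky (cmp (cmp (cg g) (cd k)) (ci g)) (px k)))
    (cond (Nat.beq g (nat_lit 3)) (sw (ti k)) (ti k)))

/-- indices of the normalizer of `{0, ∞}` -/
def kp (j : Nat) : Nat :=
  Nat.add (cond (Nat.beq (Nat.mod (Nat.div j (nat_lit 8)) (nat_lit 2)) (nat_lit 0)) (nat_lit 9) (nat_lit 90))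
    (Nat.add (Nat.mul (nat_lit 100) (Nat.add (Nat.mod j (nat_lit 8)) (nat_lit 1)))
      (Nat.mul (nat_lit 1000) (Nat.div j (nat_lit 16))))

def stb (k : Nat) : Bool :=
  and (vd k) (or (and (Nat.beq (dg (cd k) (nat_lit 0)) (nat_lit 0)) (Nat.beq (dg (cd k) (nat_lit 9)) (nat_lit 9)))
    (and (Nat.beq (dg (cd k) (nat_lit 0)) (nat_lit 9)) (Nat.beq (dg (cd k) (nat_lit 9)) (nat_lit 0))))

/-- commuting pairs of given parities in the normalizer of `{0, ∞}` -/
def cmm (c d : Nat) : Bool := Nat.beq (cmp c d) (cmp d c)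
def prp (x y n : Nat) : Bool :=
  and (Nat.beq (Nat.div (Nat.div n (nat_lit 32)) (nat_lit 16)) x)
    (and (Nat.beq (Nat.div (Nat.mod n (nat_lit 32)) (nat_lit 16)) y)
    (cmm (cd (kp (Nat.div n (nat_lit 32)))) (cd (kp (Nat.mod n (nat_lit 32))))))

/-- representatives of classes -/
def RP : Nat := 0x3f703f5040103f40019001c001b00180017001a0015000c000d006d
def rp (i : Nat) : Nat := Nat.land (Nat.shiftRight RP (Nat.mul (nat_lit 16) i)) (nat_lit 65535)

def sq (c : Nat) : Nat := cmp c c

def chk5 (i : Nat) : Bool :=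
  and (vd (rp i)) (and (Nat.beq (ti (rp i)) i)
    (and (Nat.beq (px (rp i)) (cond (Nat.ble (nat_lit 10) i) (nat_lit 1) (nat_lit 0)))
    ((fun c8 => Nat.beq (cmp (sq (sq c8)) c8) (cd k1)) (sq (sq (sq (cd (rp i))))))))

/-- the effect of an element outside the centralizer on the invariants of the 2-group -/
def swk (k : Nat) : Nat :=
  cond (and (Nat.beq (Nat.land k (nat_lit 62)) (nat_lit 0)) (Nat.beq (Nat.land k (nat_lit 1)) (nat_lit 1)))
    (Nat.xor k (nat_lit 64)) k

def vn (p : Nat) : Nat :=
  Nat.min p (Nat.add (Nat.mul (nat_lit 128) (sw (Nat.div p (nat_lit 128)))) (swk (Nat.mod p (nat_lit 128))))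

/-- admissible invariants -/
def wit (p : Nat) : Bool :=
  and (or (Nat.blt (Nat.mod p (nat_lit 128)) (nat_lit 64)) (Nat.beq (Nat.land (Nat.mod p (nat_lit 128)) (nat_lit 62)) (nat_lit 0)))
    (and (Nat.beq (Nat.land (Nat.shiftRight p (nat_lit 3)) (nat_lit 1))
      (cond (Nat.ble (nat_lit 10) (Nat.div p (nat_lit 128))) (nat_lit 1) (nat_lit 0)))
      (Nat.beq (vn p) p))

theorem chk1_all1 : allB 2000 (chk1 1) = true := by decide +kernel
theorem chk1_all2 : allB 2000 (chk1 2) = true := by decide +kernel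
theorem chk1_all3 : allB 2000 (chk1 3) = true := by decide +kernel
theorem chk2_all : allB 2000 chk2 = true := by decide +kernel
theorem chk3_all : allB 2000 chk3 = true := by decide +kernel
theorem chk4_all1 : allB 2000 (chk4 1) = true := by decide +kernel
theorem chk4_all2 : allB 2000 (chk4 2) = true := by decide +kernel
theorem chk4_all3 : allB 2000 (chk4 3) = true := by decide +kernel
theorem cnt_all : cntB 2000 vd = 1440 := by decide +kernel
theorem cnt_even : cntB 2000 (fun k => and (vd k) (Nat.beq (px k) 0)) = 720 := by decide +kernel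
theorem cnt_stb : cntB 2000 stb = 32 := by decide +kernel
theorem cnt_cent : cntB 2000 (fun k => and (vd k) (cmm (cd k) (cg 2))) = 10 := by decide +kernel
theorem cnt_stb2 : cntB 2000 (fun k => and (stb k) (cmm (cd k) (sq (cg 1)))) = 16 := by decide +kernel
theorem cnt_00 : cntB 1024 (prp 0 0) = 112 := by decide +kernel
theorem cnt_01 : cntB 1024 (prp 0 1) = 80 := by decide +kernel
theorem cnt_10 : cntB 1024 (prp 1 0) = 80 := by decide +kernel
theorem cnt_11 : cntB 1024 (prp 1 1) = 80 := by decide +kernel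
theorem chk5_all : allB 14 chk5 = true := by decide +kernel
theorem cnt_wit : cntB 1792 wit = 362 := by decide +kernel

end Pool.Agent.Q21.PR
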